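import Pool.Agent.R465.LL.Lim
import Pool.Agent.Y911.AA.Main

set_option autoImplicit false

/-!
# All triples of radical at most `X`: summation over the repeated part
-/

namespace Pool.Agent.R465.LL

open Finset Filter Topology Pool.Agent.TH498.AR Pool.Agent.Y911.AA
open Pool.Agent.Results.MP_1ea25c_nt.AlmostAllTriples (triples rad3)

/-- the repeated part `abc / rad (abc)` -/
def rep (p : ℕ × ℕ) : ℕ := p.1 * p.2 * (p.1 + p.2) / rad3 p

lemma rad3_eq (p : ℕ × ℕ) : rad3 p = radP ∅ (p.1 * p.2 * (p.1 + p.2)) := by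
  rw [← rd_eq]
  rfl

lemma rep_eq {p : ℕ × ℕ} (hc : Nat.Coprime p.1 p.2) : rep p = psi3 ∅ p := by
  have h := coprime3 (P := ∅) hc
  unfold rep
  rw [rad3_eq]
  conv_lhs =>
    lhs
    rw [← h]
  exact Nat.mul_div_cancel _ (radP_pos ∅ _)

lemma rep_mul {p : ℕ × ℕ} (hc : Nat.Coprime p.1 p.2) :
    rep p * rad3 p = p.1 * p.2 * (p.1 + p.2) := by
  rw [rep_eq hc, rad3_eq]
  exact coprime3 hc

lemma rep_pos {X : ℝ} {p : ℕ × ℕ} (hp : p ∈ triples X) : 0 < rep p := by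
  obtain ⟨h1, h2, h3, -⟩ := hp
  rw [rep_eq h3]
  exact psi3_pos h1 (by omega)

lemma set_eq (w : ℕ) {X : ℝ} (hX : 0 < X) :
    {p | p ∈ triples X ∧ rep p = w} = Nw w (((w : ℝ) * X) ^ ((1 : ℝ) / 3)) := by
  ext p
  constructor
  · rintro ⟨⟨h1, h2, h3, h4⟩, h5⟩
    rw [rep_eq h3] at h5
    refine ⟨h1, h2, h3, h5, ?_⟩
    have := (rd_le_iff h1 (by omega) h3 hX).1 h4
    rwa [h5] at this
  · rintro ⟨h1, h2, h3, h4, h5⟩
    refine ⟨⟨h1, h2, h3, ?_⟩, by rw [rep_eq h3, h4]⟩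
    refine (rd_le_iff h1 (by omega) h3 hX).2 ?_
    rw [h4]
    exact h5

/-- change of scale -/
lemma scale {w : ℕ} (hw : 0 < w) {N : ℝ → ℝ} {L : ℝ}
    (h : Tendsto (fun x : ℝ => N x / x ^ 2) atTop (𝓝 L)) :
    Tendsto (fun X : ℝ => N (((w : ℝ) * X) ^ ((1 : ℝ) / 3)) / X ^ ((2 : ℝ) / 3)) atTop
      (𝓝 (L * (w : ℝ) ^ ((2 : ℝ) / 3))) := by
  have hw0 : (0 : ℝ) < w := by exact_mod_cast hw
  have h1 : Tendsto (fun X : ℝ => ((w : ℝ) * X) ^ ((1 : ℝ) / 3)) atTop atTop :=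
    (tendsto_rpow_atTop (by norm_num)).comp (tendsto_id.const_mul_atTop hw0)
  refine ((h.comp h1).mul_const ((w : ℝ) ^ ((2 : ℝ) / 3))).congr' ?_
  filter_upwards [eventually_gt_atTop 0] with X hX
  simp only [Function.comp]
  have e : (((w : ℝ) * X) ^ ((1 : ℝ) / 3)) ^ 2 = (w : ℝ) ^ ((2 : ℝ) / 3) * X ^ ((2 : ℝ) / 3) := by
    rw [← Real.rpow_natCast, ← Real.rpow_mul (by positivity), Real.mul_rpow hw0.le hX.le]
    norm_num
  rw [e]
  have h1 : (w : ℝ) ^ ((2 : ℝ) / 3) ≠ 0 := by positivity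
  have h2 : X ^ ((2 : ℝ) / 3) ≠ 0 := by positivity
  field_simp

/-- the triples with a large repeated part, of all heights -/
theorem tail_bound : ∃ C ν : ℝ, 0 < C ∧ 0 < ν ∧ ∀ X W : ℝ, 1 ≤ X → 1 ≤ W →
    (({p | p ∈ triples X ∧ W ≤ (rep p : ℝ)} : Set (ℕ × ℕ)).ncard : ℝ) ≤
      C * (W ^ (-(1 / 10) : ℝ) * X ^ ((2 : ℝ) / 3) + X ^ (2 / 3 - ν)) := by
  classical
  obtain ⟨C1, hC1, h1⟩ := tail 1
  obtain ⟨κ, -, -, h2⟩ := Pool.Agent.Y911.AA.main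
  obtain ⟨ν, C2, hν, hC2, h3⟩ := h2 1 (by norm_num)
  obtain ⟨ν', hν'⟩ : ∃ ν' : ℝ, ν' = min ν (1 / 480) := ⟨_, rfl⟩
  have hν'0 : 0 < ν' := by rw [hν']; exact lt_min hν (by norm_num)
  have hν'1 : ν' ≤ ν := by rw [hν']; exact min_le_left _ _
  have hν'2 : ν' ≤ 1 / 480 := by rw [hν']; exact min_le_right _ _
  refine ⟨C1 + C2, ν', by positivity, hν'0, fun X W hX hW => ?_⟩
  have hX0 : 0 < X := by linarith
  have hfin : ({p | p ∈ triples X ∧ W ≤ (rep p : ℝ)} : Set (ℕ × ℕ)).Finite :=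
    (triples_finite' X).subset fun p hp => hp.1
  set E := hfin.toFinset with hE
  have hmem : ∀ p ∈ E, p ∈ triples X ∧ W ≤ (rep p : ℝ) := fun p hp => by
    rw [hE, Set.Finite.mem_toFinset] at hp
    exact hp
  have hEc : (({p | p ∈ triples X ∧ W ≤ (rep p : ℝ)} : Set (ℕ × ℕ)).ncard : ℝ) = E.card := by
    rw [hE, Set.ncard_eq_toFinset_card _ hfin]
  have k1 : (((E.filter (fun p => ((p.1 + p.2 : ℕ) : ℝ) ≤ X)).card : ℕ) : ℝ) ≤
      C1 * (W ^ (-(1 / 10) : ℝ) * X ^ ((2 : ℝ) / 3) + X ^ (2 / 3 - 1 / 480 : ℝ)) := by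
    refine h1 X W hX hW _ fun p hp => ?_
    obtain ⟨hp1, hp2⟩ := mem_filter.1 hp
    obtain ⟨⟨a1, a2, a3, a4⟩, a5⟩ := hmem p hp1
    refine ⟨a1, a2, a3, ?_, ?_, ?_⟩
    · rw [← rad3_eq]
      exact a4
    · rw [Real.rpow_one]
      exact hp2
    · rw [← rep_eq a3]
      exact a5
  have k2 : (((E.filter (fun p => ¬ ((p.1 + p.2 : ℕ) : ℝ) ≤ X)).card : ℕ) : ℝ) ≤
      C2 * X ^ (2 / 3 - ν) := by
    refine le_trans ?_ (h3 X hX)
    rw [← Set.ncard_coe_finset]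
    have hs : ((E.filter (fun p => ¬ ((p.1 + p.2 : ℕ) : ℝ) ≤ X) : Finset (ℕ × ℕ)) :
        Set (ℕ × ℕ)) ⊆ viol 1 X := by
      intro p hp
      rw [mem_coe, mem_filter] at hp
      obtain ⟨hp1, hp2⟩ := hp
      have h4 := (hmem p hp1).1
      refine ⟨h4, ?_⟩
      rw [Real.rpow_one]
      exact h4.2.2.2.trans (not_le.1 hp2).le
    exact_mod_cast Set.ncard_le_ncard hs ((triples_finite' X).subset fun p hp => hp.1)
  have hsplit : (E.card : ℝ) = ((E.filter (fun p => ((p.1 + p.2 : ℕ) : ℝ) ≤ X)).card : ℝ) +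
      ((E.filter (fun p => ¬ ((p.1 + p.2 : ℕ) : ℝ) ≤ X)).card : ℝ) := by
    exact_mod_cast (card_filter_add_card_filter_not (s := E)
      (fun p => ((p.1 + p.2 : ℕ) : ℝ) ≤ X)).symm
  have m1 : X ^ (2 / 3 - 1 / 480 : ℝ) ≤ X ^ (2 / 3 - ν') :=
    Real.rpow_le_rpow_of_exponent_le hX (by linarith)
  have m2 : X ^ (2 / 3 - ν) ≤ X ^ (2 / 3 - ν') :=
    Real.rpow_le_rpow_of_exponent_le hX (by linarith)
  have m3 : 0 ≤ W ^ (-(1 / 10) : ℝ) * X ^ ((2 : ℝ) / 3) := by positivity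
  rw [hEc, hsplit]
  have n1 : C1 * (W ^ (-(1 / 10) : ℝ) * X ^ ((2 : ℝ) / 3) + X ^ (2 / 3 - 1 / 480 : ℝ)) ≤
      C1 * (W ^ (-(1 / 10) : ℝ) * X ^ ((2 : ℝ) / 3) + X ^ (2 / 3 - ν')) :=
    mul_le_mul_of_nonneg_left (by linarith) hC1.le
  have n2 : C2 * X ^ (2 / 3 - ν) ≤ C2 * X ^ (2 / 3 - ν') := mul_le_mul_of_nonneg_left m2 hC2.le
  nlinarith [mul_nonneg hC2.le m3]

/-- **Summation over the repeated part.** -/
theorem sum_law (A : ℝ → Set (ℕ × ℕ)) (hA : ∀ X, A X ⊆ triples X) (α : ℕ → ℝ)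
    (hα : ∀ w : ℕ, 0 < w → Tendsto (fun X : ℝ =>
      (({p | p ∈ A X ∧ rep p = w} : Set (ℕ × ℕ)).ncard : ℝ) / X ^ ((2 : ℝ) / 3)) atTop
        (𝓝 (α w))) (h0 : α 0 = 0) :
    (∀ w, 0 ≤ α w) ∧ Summable α ∧
      Tendsto (fun X : ℝ => ((A X).ncard : ℝ) / X ^ ((2 : ℝ) / 3)) atTop (𝓝 (∑' w, α w)) := by
  classical
  have hAfin : ∀ X, (A X).Finite := fun X => (triples_finite' X).subset (hA X)
  have hwfin : ∀ (w : ℕ) (X : ℝ), ({p | p ∈ A X ∧ rep p = w} : Set (ℕ × ℕ)).Finite :=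
    fun w X => (hAfin X).subset fun p hp => hp.1
  have hnn : ∀ w, 0 ≤ α w := by
    intro w
    rcases Nat.eq_zero_or_pos w with h | h
    · rw [h, h0]
    · refine ge_of_tendsto (hα w h) ?_
      filter_upwards [eventually_gt_atTop 0] with X hX
      positivity
  -- the finite sums
  have hpart : ∀ W : ℕ, Tendsto (fun X : ℝ =>
      (({p | p ∈ A X ∧ rep p < W} : Set (ℕ × ℕ)).ncard : ℝ) / X ^ ((2 : ℝ) / 3)) atTop
        (𝓝 (∑ w ∈ range W, α w)) := by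
    intro W
    have hlim : Tendsto (fun X : ℝ => ∑ w ∈ range W,
        (({p | p ∈ A X ∧ rep p = w} : Set (ℕ × ℕ)).ncard : ℝ) / X ^ ((2 : ℝ) / 3)) atTop
        (𝓝 (∑ w ∈ range W, α w)) := by
      refine tendsto_finsetSum _ fun w _ => ?_
      rcases Nat.eq_zero_or_pos w with h | h
      · rw [h, h0]
        refine tendsto_const_nhds.congr fun X => ?_
        have : ({p | p ∈ A X ∧ rep p = 0} : Set (ℕ × ℕ)) = ∅ := by
          rw [Set.eq_empty_iff_forall_notMem]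
          rintro p ⟨hp1, hp2⟩
          have := rep_pos (hA X hp1)
          omega
        rw [this]
        simp
      · exact hα w h
    refine hlim.congr fun X => ?_
    rw [← sum_div]
    congr 1
    have hset : ({p | p ∈ A X ∧ rep p < W} : Set (ℕ × ℕ)) =
        (((range W).biUnion (fun w => (hwfin w X).toFinset) : Finset (ℕ × ℕ)) :
          Set (ℕ × ℕ)) := by
      ext p
      rw [mem_coe, mem_biUnion]
      constructor
      · rintro ⟨h1, h2⟩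
        exact ⟨rep p, mem_range.2 h2, (Set.Finite.mem_toFinset _).2 ⟨h1, rfl⟩⟩
      · rintro ⟨w, hw, hp⟩
        rw [Set.Finite.mem_toFinset] at hp
        refine ⟨hp.1, ?_⟩
        rw [hp.2]
        exact mem_range.1 hw
    rw [hset, Set.ncard_coe_finset, card_biUnion]
    · push_cast
      refine sum_congr rfl fun w _ => ?_
      exact_mod_cast Set.ncard_eq_toFinset_card _ (hwfin w X)
    · intro w _ w' _ hne
      rw [Function.onFun, disjoint_left]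
      intro p hp hp'
      rw [Set.Finite.mem_toFinset] at hp hp'
      exact hne (hp.2.symm.trans hp'.2)
  obtain ⟨κ, hκ0, hκ, -⟩ := Pool.Agent.Y911.AA.main
  have hbd : ∀ W : ℕ, ∑ w ∈ range W, α w ≤ κ := by
    intro W
    refine le_of_tendsto_of_tendsto (hpart W) hκ ?_
    filter_upwards [eventually_gt_atTop 0] with X hX
    refine div_le_div_of_nonneg_right ?_ (by positivity)
    have hs : ({p | p ∈ A X ∧ rep p < W} : Set (ℕ × ℕ)) ⊆ triples X := fun p hp => hA X hp.1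
    exact_mod_cast Set.ncard_le_ncard hs (triples_finite' X)
  have hsum : Summable α := summable_of_sum_range_le hnn hbd
  refine ⟨hnn, hsum, ?_⟩
  obtain ⟨C, ν, hC, hν, htail⟩ := tail_bound
  rw [Metric.tendsto_nhds]
  intro ε hε
  have h1 : Tendsto (fun W : ℕ => C * (W : ℝ) ^ (-(1 / 10) : ℝ)) atTop (𝓝 (C * 0)) :=
    ((tendsto_rpow_neg_atTop (by norm_num : (0 : ℝ) < 1 / 10)).comp
      tendsto_natCast_atTop_atTop).const_mul C
  rw [mul_zero] at h1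
  have h2 := h1.eventually (eventually_lt_nhds (by positivity : (0 : ℝ) < ε / 4))
  have h3 := (Metric.tendsto_nhds.1 hsum.hasSum.tendsto_sum_nat) (ε / 4) (by positivity)
  obtain ⟨W, ⟨hW1, hW2⟩, hW3⟩ := ((h2.and h3).and (eventually_ge_atTop 1)).exists
  have h4 : Tendsto (fun X : ℝ => C * X ^ (-ν)) atTop (𝓝 (C * 0)) :=
    (tendsto_rpow_neg_atTop hν).const_mul C
  rw [mul_zero] at h4
  have h5 := h4.eventually (eventually_lt_nhds (by positivity : (0 : ℝ) < ε / 4))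
  have h6 := (Metric.tendsto_nhds.1 (hpart W)) (ε / 4) (by positivity)
  filter_upwards [h5, h6, eventually_ge_atTop 1] with X hX5 hX6 hX1
  have hX0 : 0 < X := by linarith
  have hXp : 0 < X ^ ((2 : ℝ) / 3) := by positivity
  have hWr : (1 : ℝ) ≤ W := by exact_mod_cast hW3
  have ht := htail X W hX1 hWr
  have hsub : (A X).ncard ≤ ({p | p ∈ A X ∧ rep p < W} : Set (ℕ × ℕ)).ncard +
      ({p | p ∈ triples X ∧ (W : ℝ) ≤ (rep p : ℝ)} : Set (ℕ × ℕ)).ncard := by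
    have hs : A X ⊆ {p | p ∈ A X ∧ rep p < W} ∪
        {p | p ∈ triples X ∧ (W : ℝ) ≤ (rep p : ℝ)} := by
      intro p hp
      rcases lt_or_ge (rep p) W with h | h
      · exact Or.inl ⟨hp, h⟩
      · exact Or.inr ⟨hA X hp, by exact_mod_cast h⟩
    have f1 : ({p | p ∈ A X ∧ rep p < W} : Set (ℕ × ℕ)).Finite :=
      (hAfin X).subset fun p hp => hp.1
    have f2 : ({p | p ∈ triples X ∧ (W : ℝ) ≤ (rep p : ℝ)} : Set (ℕ × ℕ)).Finite :=
      (triples_finite' X).subset fun p hp => hp.1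
    exact (Set.ncard_le_ncard hs (f1.union f2)).trans (Set.ncard_union_le _ _)
  have hge : ({p | p ∈ A X ∧ rep p < W} : Set (ℕ × ℕ)).ncard ≤ (A X).ncard :=
    Set.ncard_le_ncard (fun p hp => hp.1) (hAfin X)
  have hsub' : ((A X).ncard : ℝ) ≤ (({p | p ∈ A X ∧ rep p < W} : Set (ℕ × ℕ)).ncard : ℝ) +
      (({p | p ∈ triples X ∧ (W : ℝ) ≤ (rep p : ℝ)} : Set (ℕ × ℕ)).ncard : ℝ) := by
    exact_mod_cast hsub
  have hge' : (({p | p ∈ A X ∧ rep p < W} : Set (ℕ × ℕ)).ncard : ℝ) ≤ ((A X).ncard : ℝ) := by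
    exact_mod_cast hge
  have e3 : X ^ (2 / 3 - ν) = X ^ (-ν) * X ^ ((2 : ℝ) / 3) := by
    rw [← Real.rpow_add hX0]
    congr 1
    ring
  rw [e3] at ht
  have k0 : ((A X).ncard : ℝ) / X ^ ((2 : ℝ) / 3) ≤
      (({p | p ∈ A X ∧ rep p < W} : Set (ℕ × ℕ)).ncard : ℝ) / X ^ ((2 : ℝ) / 3) + ε / 2 := by
    rw [div_add' _ _ _ hXp.ne', div_le_div_iff_of_pos_right hXp]
    have : C * ((W : ℝ) ^ (-(1 / 10) : ℝ) * X ^ ((2 : ℝ) / 3) + X ^ (-ν) * X ^ ((2 : ℝ) / 3)) ≤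
        ε / 2 * X ^ ((2 : ℝ) / 3) := by
      have : C * ((W : ℝ) ^ (-(1 / 10) : ℝ) * X ^ ((2 : ℝ) / 3) + X ^ (-ν) * X ^ ((2 : ℝ) / 3)) =
          (C * (W : ℝ) ^ (-(1 / 10) : ℝ) + C * X ^ (-ν)) * X ^ ((2 : ℝ) / 3) := by ring
      rw [this]
      refine mul_le_mul_of_nonneg_right ?_ hXp.le
      linarith
    linarith
  have k1 : (({p | p ∈ A X ∧ rep p < W} : Set (ℕ × ℕ)).ncard : ℝ) / X ^ ((2 : ℝ) / 3) ≤
      ((A X).ncard : ℝ) / X ^ ((2 : ℝ) / 3) := div_le_div_of_nonneg_right hge' hXp.le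
  rw [Real.dist_eq, abs_lt] at hX6 hW2 ⊢
  constructor <;> linarith [hX6.1, hX6.2, hW2.1, hW2.2]

end Pool.Agent.R465.LL
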