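import Pool.Agent.R465.LL.Fin

set_option autoImplicit false

/-!
# The limit law in terms of shares
-/

namespace Pool.Agent.R465.LL

open Finset Filter Topology Pool.Agent.TH498.AR Pool.Agent.Y911.AA
open Pool.Agent.Results.MP_1ea25c_nt.AlmostAllTriples (triples rad3)

/-- the share of the triples with `P` -/
noncomputable def share (P : ℕ × ℕ → Prop) (X : ℝ) : ℝ :=
  (({p | p ∈ triples X ∧ P p} : Set (ℕ × ℕ)).ncard : ℝ) / ((triples X).ncard : ℝ)

lemma share_of {κ : ℝ} (hκ : 0 < κ)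
    (h1 : Tendsto (fun X : ℝ => ((triples X).ncard : ℝ) / X ^ ((2 : ℝ) / 3)) atTop (𝓝 κ))
    {P : ℕ × ℕ → Prop} {L : ℝ}
    (h2 : Tendsto (fun X : ℝ => (({p | p ∈ triples X ∧ P p} : Set (ℕ × ℕ)).ncard : ℝ) /
      X ^ ((2 : ℝ) / 3)) atTop (𝓝 L)) :
    Tendsto (share P) atTop (𝓝 (L / κ)) := by
  refine (h2.div h1 hκ.ne').congr' ?_
  filter_upwards [eventually_gt_atTop 0] with X hX
  simp only [share, Pi.div_apply]
  exact div_div_div_cancel_right₀ (by positivity) _ _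

lemma count_not (P : ℕ × ℕ → Prop) (X : ℝ) :
    (({p | p ∈ triples X ∧ ¬ P p} : Set (ℕ × ℕ)).ncard : ℝ) =
      ((triples X).ncard : ℝ) - (({p | p ∈ triples X ∧ P p} : Set (ℕ × ℕ)).ncard : ℝ) := by
  have h := Set.ncard_inter_add_ncard_sdiff_eq_ncard (triples X) {p | P p} (triples_finite' X)
  have h' : (((triples X) ∩ {p | P p}).ncard : ℝ) + (((triples X) \ {p | P p}).ncard : ℝ) =
      ((triples X).ncard : ℝ) := by exact_mod_cast h
  have e1 : (triples X) ∩ {p | P p} = {p | p ∈ triples X ∧ P p} := rfl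
  have e2 : (triples X) \ {p | P p} = {p | p ∈ triples X ∧ ¬ P p} := rfl
  rw [e1, e2] at h'
  linarith

lemma share_not {κ : ℝ} (hκ : 0 < κ)
    (h1 : Tendsto (fun X : ℝ => ((triples X).ncard : ℝ) / X ^ ((2 : ℝ) / 3)) atTop (𝓝 κ))
    {P : ℕ × ℕ → Prop} {L : ℝ}
    (h2 : Tendsto (fun X : ℝ => (({p | p ∈ triples X ∧ P p} : Set (ℕ × ℕ)).ncard : ℝ) /
      X ^ ((2 : ℝ) / 3)) atTop (𝓝 L)) :
    Tendsto (share fun p => ¬ P p) atTop (𝓝 (1 - L / κ)) := by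
  have h3 : Tendsto (fun X : ℝ => (({p | p ∈ triples X ∧ ¬ P p} : Set (ℕ × ℕ)).ncard : ℝ) /
      X ^ ((2 : ℝ) / 3)) atTop (𝓝 (κ - L)) := by
    refine (h1.sub h2).congr fun X => ?_
    rw [count_not, sub_div]
  have h4 := share_of hκ h1 h3
  rwa [sub_div, div_self hκ.ne'] at h4

/-- the distribution function -/
noncomputable def FF (μ : ℕ → ℝ) (t : ℝ) : ℝ := ∑' w : ℕ, μ w * (1 - Phi (rho ((w : ℝ) / t)))

lemma cube_root {t r : ℝ} (hr : 0 ≤ r) :
    (t * r ^ ((1 : ℝ) / 3)) ^ 3 = t ^ 3 * r := by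
  rw [mul_pow, ← Real.rpow_natCast (r ^ ((1 : ℝ) / 3)), ← Real.rpow_mul hr]
  norm_num

theorem final : ∃ μ : ℕ → ℝ, (∀ w, 0 ≤ μ w) ∧ HasSum μ 1 ∧ μ 0 = 0 ∧
    (∀ w : ℕ, ∀ u : ℝ, 0 ≤ u → u ≤ 1 →
      Tendsto (share fun p => rep p = w ∧ (p.1 : ℝ) ≤ u * p.2) atTop (𝓝 (μ w * Phi u))) ∧
    (∀ w : ℕ, Tendsto (share fun p => rep p = w) atTop (𝓝 (μ w))) ∧
    (∀ u : ℝ, 0 ≤ u → u ≤ 1 →
      Tendsto (share fun p => (p.1 : ℝ) ≤ u * p.2) atTop (𝓝 (Phi u))) ∧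
    (∀ t : ℝ, 0 < t →
      Tendsto (share fun p => ((p.1 + p.2 : ℕ) : ℝ) ^ 3 ≤ t * rad3 p) atTop (𝓝 (FF μ t))) ∧
    ContinuousOn (FF μ) (Set.Ioi 0) ∧ MonotoneOn (FF μ) (Set.Ioi 0) ∧
    (∀ t : ℝ, 0 < t → t ≤ 4 → FF μ t = 0) ∧ (∀ t : ℝ, 0 < t → FF μ t < 1) ∧
    Tendsto (FF μ) atTop (𝓝 1) ∧
    (∀ ψ : ℝ → ℝ, Tendsto ψ atTop atTop →
      Tendsto (share fun p => ψ (rad3 p) * (rad3 p : ℝ) ^ ((1 : ℝ) / 3) < ((p.1 + p.2 : ℕ) : ℝ))
        atTop (𝓝 0)) ∧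
    (∀ K : ℝ, ∃ δ : ℝ, 0 < δ ∧
      Tendsto (share fun p => K * (rad3 p : ℝ) ^ ((1 : ℝ) / 3) < ((p.1 + p.2 : ℕ) : ℝ))
        atTop (𝓝 δ)) := by
  classical
  obtain ⟨c, κ, hκ, hc, hsum, hc0, htri, hjoint, hratio, hcrit⟩ := main
  obtain ⟨μ, hμ⟩ : ∃ μ : ℕ → ℝ, μ = fun w => c w / κ := ⟨_, rfl⟩
  have hμw : ∀ w, μ w = c w / κ := fun w => by rw [hμ]
  have hμ0 : ∀ w, 0 ≤ μ w := fun w => by rw [hμw]; exact div_nonneg (hc w) hκ.le
  have hμs : HasSum μ 1 := by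
    have := hsum.div_const κ
    rw [div_self hκ.ne'] at this
    rw [hμ]
    exact this
  have hμz : μ 0 = 0 := by rw [hμw, hc0, zero_div]
  have hFF : ∀ t : ℝ, FF μ t = ∑' w, ff μ w t := fun t => rfl
  have hFFc : ∀ t : ℝ, (∑' w, ff c w t) / κ = FF μ t := by
    intro t
    rw [hFF, ← tsum_div_const]
    refine tsum_congr fun w => ?_
    unfold ff
    rw [hμw]
    ring
  have hffs : ∀ t : ℝ, 0 < t → Summable (fun w => ff μ w t) := fun t ht =>
    Summable.of_nonneg_of_le (fun w => ff_nonneg hμ0 w ht) (fun w => ff_le hμ0 w ht) hμs.summable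
  -- (1) and (2)
  have hzero : ∀ P : ℕ × ℕ → Prop, Tendsto (share fun p => rep p = 0 ∧ P p) atTop (𝓝 0) := by
    intro P
    refine tendsto_const_nhds.congr fun X => ?_
    have : ({p | p ∈ triples X ∧ rep p = 0 ∧ P p} : Set (ℕ × ℕ)) = ∅ := by
      rw [Set.eq_empty_iff_forall_notMem]
      rintro p ⟨hp1, hp2, -⟩
      have := rep_pos hp1
      omega
    unfold share
    rw [this]
    simp
  have h1 : ∀ w : ℕ, ∀ u : ℝ, 0 ≤ u → u ≤ 1 →
      Tendsto (share fun p => rep p = w ∧ (p.1 : ℝ) ≤ u * p.2) atTop (𝓝 (μ w * Phi u)) := by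
    intro w u hu0 hu1
    rcases Nat.eq_zero_or_pos w with h | h
    · subst h
      rw [hμz, zero_mul]
      exact hzero _
    · have := share_of hκ htri (hjoint w h u hu0 hu1)
      rw [hμw]
      have e : c w / κ * Phi u = c w * Phi u / κ := by ring
      rw [e]
      exact this
  have h3 : ∀ u : ℝ, 0 ≤ u → u ≤ 1 →
      Tendsto (share fun p => (p.1 : ℝ) ≤ u * p.2) atTop (𝓝 (Phi u)) := by
    intro u hu0 hu1
    have := share_of hκ htri (hratio u hu0 hu1)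
    rwa [mul_div_cancel_left₀ _ hκ.ne'] at this
  have h2 : ∀ w : ℕ, Tendsto (share fun p => rep p = w) atTop (𝓝 (μ w)) := by
    intro w
    have := h1 w 1 zero_le_one le_rfl
    rw [Phi_one, mul_one] at this
    refine this.congr fun X => ?_
    unfold share
    congr 2
    congr 1
    ext p
    refine ⟨fun h => ⟨h.1, h.2.1⟩, fun h => ⟨h.1, h.2, ?_⟩⟩
    rw [one_mul]
    exact_mod_cast h.1.2.1
  have h4 : ∀ t : ℝ, 0 < t →
      Tendsto (share fun p => ((p.1 + p.2 : ℕ) : ℝ) ^ 3 ≤ t * rad3 p) atTop (𝓝 (FF μ t)) := by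
    intro t ht
    have := share_of hκ htri (hcrit t ht)
    rwa [hFFc] at this
  have hlt : ∀ t : ℝ, 0 < t → FF μ t < 1 := by
    intro t ht
    obtain ⟨w, hw⟩ : ∃ w, 0 < μ w := by
      by_contra hcon
      push Not at hcon
      have h0 : μ = fun _ => 0 := funext fun w => le_antisymm (hcon w) (hμ0 w)
      rw [h0] at hμs
      have := hμs.unique hasSum_zero
      norm_num at this
    have hw0 : 0 < w := by
      rcases Nat.eq_zero_or_pos w with h | h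
      · rw [h, hμz] at hw
        exact absurd hw (lt_irrefl _)
      · exact h
    rw [hFF, ← hμs.tsum_eq]
    refine Summable.tsum_lt_tsum (i := w) (fun i => ff_le hμ0 i ht) ?_ (hffs t ht) hμs.summable
    unfold ff
    have h5 : 0 < (w : ℝ) / t := div_pos (by exact_mod_cast hw0) ht
    have h6 := Phi_pos (rho_pos h5)
    nlinarith
  have htend : Tendsto (FF μ) atTop (𝓝 1) := by
    have := tendsto_tsum_of_dominated_convergence (𝓕 := (atTop : Filter ℝ))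
      (f := fun t w => ff μ w t) (g := μ) hμs.summable (fun w => ff_tendsto μ w) (by
        filter_upwards [eventually_gt_atTop 0] with t ht w
        exact ff_norm hμ0 w ht)
    rw [hμs.tsum_eq] at this
    exact this
  have hnot : ∀ t : ℝ, 0 < t →
      Tendsto (share fun p => ¬ ((p.1 + p.2 : ℕ) : ℝ) ^ 3 ≤ t * rad3 p) atTop
        (𝓝 (1 - FF μ t)) := by
    intro t ht
    have := share_not hκ htri (hcrit t ht)
    rwa [hFFc] at this
  refine ⟨μ, hμ0, hμs, hμz, h1, h2, h3, h4, ?_, ?_, ?_, hlt, htend, ?_, ?_⟩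
  · exact continuousOn_tsum (fun w => ff_cont μ w) hμs.summable
      (fun w t ht => ff_norm hμ0 w (Set.mem_Ioi.1 ht))
  · intro s hs t ht hst
    have hs' := Set.mem_Ioi.1 hs
    have ht' := Set.mem_Ioi.1 ht
    exact Summable.tsum_le_tsum (fun w => ff_mono hμ0 w hs' hst) (hffs s hs') (hffs t ht')
  · intro t ht ht4
    rw [hFF]
    simp only [ff_zero hμz _ ht ht4]
    exact tsum_zero
  · intro ψ hψ
    have hcount : Tendsto (fun X : ℝ => ((triples X).ncard : ℝ)) atTop atTop := by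
      have h5 : Tendsto (fun X : ℝ => X ^ ((2 : ℝ) / 3)) atTop atTop :=
        tendsto_rpow_atTop (by norm_num)
      refine (h5.atTop_mul_pos hκ htri).congr' ?_
      filter_upwards [eventually_gt_atTop 0] with X hX
      have : X ^ ((2 : ℝ) / 3) ≠ 0 := by positivity
      field_simp
    rw [Metric.tendsto_nhds]
    intro ε hε
    obtain ⟨t, ht, hFt⟩ : ∃ t : ℝ, 0 < t ∧ 1 - ε / 2 < FF μ t := by
      have h5 := htend.eventually (lt_mem_nhds (by linarith : 1 - ε / 2 < 1))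
      obtain ⟨t, h6, h7⟩ := (h5.and (eventually_gt_atTop 0)).exists
      exact ⟨t, h7, h6⟩
    obtain ⟨R, hR⟩ := eventually_atTop.1 (hψ.eventually (eventually_ge_atTop (t ^ ((1 : ℝ) / 3))))
    have h5 := (hnot t ht).eventually (gt_mem_nhds (by linarith : 1 - FF μ t < ε / 2))
    have h6 : Tendsto (fun X : ℝ => ((triples R).ncard : ℝ) / ((triples X).ncard : ℝ)) atTop
        (𝓝 0) := tendsto_const_nhds.div_atTop hcount
    have h7 := h6.eventually (gt_mem_nhds (by positivity : (0 : ℝ) < ε / 2))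
    filter_upwards [h5, h7] with X hX5 hX7
    have hnn : 0 ≤ share (fun p => ψ (rad3 p) * (rad3 p : ℝ) ^ ((1 : ℝ) / 3) <
        ((p.1 + p.2 : ℕ) : ℝ)) X := by
      unfold share
      positivity
    rw [Real.dist_eq, sub_zero, abs_of_nonneg hnn]
    have hsub : ({p | p ∈ triples X ∧ ψ (rad3 p) * (rad3 p : ℝ) ^ ((1 : ℝ) / 3) <
        ((p.1 + p.2 : ℕ) : ℝ)} : Set (ℕ × ℕ)) ⊆
        {p | p ∈ triples X ∧ ¬ ((p.1 + p.2 : ℕ) : ℝ) ^ 3 ≤ t * rad3 p} ∪ triples R := by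
      rintro p ⟨hp, hlt'⟩
      rcases le_or_gt (rad3 p : ℝ) R with hle | hgt
      · exact Or.inr ⟨hp.1, hp.2.1, hp.2.2.1, hle⟩
      · refine Or.inl ⟨hp, ?_⟩
        rw [not_le]
        have hψp := hR (rad3 p) hgt.le
        have hr0 : (0 : ℝ) ≤ rad3 p := Nat.cast_nonneg _
        have h8 : t ^ ((1 : ℝ) / 3) * (rad3 p : ℝ) ^ ((1 : ℝ) / 3) < ((p.1 + p.2 : ℕ) : ℝ) :=
          lt_of_le_of_lt (mul_le_mul_of_nonneg_right hψp (by positivity)) hlt'
        have h9 : (t ^ ((1 : ℝ) / 3) * (rad3 p : ℝ) ^ ((1 : ℝ) / 3)) ^ 3 <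
            ((p.1 + p.2 : ℕ) : ℝ) ^ 3 := pow_lt_pow_left₀ h8 (by positivity) (by norm_num)
        rw [cube_root hr0, ← Real.rpow_natCast, ← Real.rpow_mul ht.le] at h9
        norm_num at h9
        exact_mod_cast h9
    have hfin1 : ({p | p ∈ triples X ∧ ¬ ((p.1 + p.2 : ℕ) : ℝ) ^ 3 ≤ t * rad3 p} :
        Set (ℕ × ℕ)).Finite := (triples_finite' X).subset fun p hp => hp.1
    have hcard : (({p | p ∈ triples X ∧ ψ (rad3 p) * (rad3 p : ℝ) ^ ((1 : ℝ) / 3) <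
        ((p.1 + p.2 : ℕ) : ℝ)} : Set (ℕ × ℕ)).ncard : ℝ) ≤
        (({p | p ∈ triples X ∧ ¬ ((p.1 + p.2 : ℕ) : ℝ) ^ 3 ≤ t * rad3 p} :
          Set (ℕ × ℕ)).ncard : ℝ) + ((triples R).ncard : ℝ) := by
      exact_mod_cast (Set.ncard_le_ncard hsub (hfin1.union (triples_finite' R))).trans
        (Set.ncard_union_le _ _)
    have hshare : share (fun p => ψ (rad3 p) * (rad3 p : ℝ) ^ ((1 : ℝ) / 3) <
        ((p.1 + p.2 : ℕ) : ℝ)) X ≤
        share (fun p => ¬ ((p.1 + p.2 : ℕ) : ℝ) ^ 3 ≤ t * rad3 p) X +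
          ((triples R).ncard : ℝ) / ((triples X).ncard : ℝ) := by
      unfold share
      rw [← add_div]
      exact div_le_div_of_nonneg_right hcard (Nat.cast_nonneg _)
    linarith
  · intro K
    rcases le_or_gt K 0 with hK | hK
    · refine ⟨1, one_pos, ?_⟩
      have h5 : Tendsto (fun X : ℝ => (({p | p ∈ triples X ∧ K * (rad3 p : ℝ) ^ ((1 : ℝ) / 3) <
          ((p.1 + p.2 : ℕ) : ℝ)} : Set (ℕ × ℕ)).ncard : ℝ) / X ^ ((2 : ℝ) / 3)) atTop (𝓝 κ) := by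
        refine htri.congr fun X => ?_
        congr 2
        congr 1
        ext p
        refine ⟨fun h => ⟨h, ?_⟩, fun h => h.1⟩
        have h6 : K * (rad3 p : ℝ) ^ ((1 : ℝ) / 3) ≤ 0 :=
          mul_nonpos_of_nonpos_of_nonneg hK (by positivity)
        have h7 : (0 : ℝ) < ((p.1 + p.2 : ℕ) : ℝ) := by
          exact_mod_cast Nat.add_pos_left h.1 _
        linarith
      have h6 := share_of hκ htri h5
      rwa [div_self hκ.ne'] at h6
    · refine ⟨1 - FF μ (K ^ 3), by linarith [hlt (K ^ 3) (by positivity)], ?_⟩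
      refine (hnot (K ^ 3) (by positivity)).congr fun X => ?_
      unfold share
      congr 2
      congr 1
      ext p
      have hr0 : (0 : ℝ) ≤ rad3 p := Nat.cast_nonneg _
      have h5 : K * (rad3 p : ℝ) ^ ((1 : ℝ) / 3) < ((p.1 + p.2 : ℕ) : ℝ) ↔
          ¬ ((p.1 + p.2 : ℕ) : ℝ) ^ 3 ≤ K ^ 3 * rad3 p := by
        rw [not_le, ← cube_root hr0]
        exact (pow_lt_pow_iff_left₀ (by positivity) (by positivity) (by norm_num)).symm
      exact ⟨fun h => ⟨h.1, h5.2 h.2⟩, fun h => ⟨h.1, h5.1 h.2⟩⟩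

end Pool.Agent.R465.LL
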