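import Pool.Agent.R465.LL.Law
import Pool.Agent.R465.LL.All

set_option autoImplicit false

/-!
# The limit law
-/

namespace Pool.Agent.R465.LL

open Finset Filter Topology Pool.Agent.TH498.AR Pool.Agent.Y911.AA
open Pool.Agent.Results.MP_1ea25c_nt.AlmostAllTriples (triples rad3)

/-- the distribution function of the ratio -/
noncomputable def Phi (u : ℝ) : ℝ := GG u / GG 1

lemma GG1_pos : 0 < GG 1 := GG_pos one_pos

lemma Phi_nonneg' {u : ℝ} (hu : 0 ≤ u) : 0 ≤ Phi u := div_nonneg (GG_nonneg hu) GG1_pos.le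

lemma Phi_pos {u : ℝ} (hu : 0 < u) : 0 < Phi u := div_pos (GG_pos hu) GG1_pos

lemma Phi_le_one {u : ℝ} (hu : 0 ≤ u) (hu1 : u ≤ 1) : Phi u ≤ 1 := by
  unfold Phi
  rw [div_le_one GG1_pos]
  exact GG_mono hu hu1

lemma Phi_one : Phi 1 = 1 := div_self GG1_pos.ne'

lemma Phi_mono {u v : ℝ} (hu : 0 ≤ u) (huv : u ≤ v) : Phi u ≤ Phi v :=
  div_le_div_of_nonneg_right (GG_mono hu huv) GG1_pos.le

/-- the summand of the limit law -/
noncomputable def ff (c : ℕ → ℝ) (w : ℕ) (t : ℝ) : ℝ := c w * (1 - Phi (rho ((w : ℝ) / t)))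

lemma ff_nonneg {c : ℕ → ℝ} (hc : ∀ w, 0 ≤ c w) (w : ℕ) {t : ℝ} (ht : 0 < t) : 0 ≤ ff c w t := by
  have h0 : 0 ≤ (w : ℝ) / t := by positivity
  have := Phi_le_one (rho_nonneg h0) (rho_le_one _)
  exact mul_nonneg (hc w) (by linarith)

lemma ff_le {c : ℕ → ℝ} (hc : ∀ w, 0 ≤ c w) (w : ℕ) {t : ℝ} (ht : 0 < t) : ff c w t ≤ c w := by
  have h0 : 0 ≤ (w : ℝ) / t := by positivity
  have := Phi_nonneg' (rho_nonneg h0)
  have := hc w
  unfold ff
  nlinarith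

lemma ff_norm {c : ℕ → ℝ} (hc : ∀ w, 0 ≤ c w) (w : ℕ) {t : ℝ} (ht : 0 < t) :
    ‖ff c w t‖ ≤ c w := by
  rw [Real.norm_of_nonneg (ff_nonneg hc w ht)]
  exact ff_le hc w ht

lemma ff_cont (c : ℕ → ℝ) (w : ℕ) : ContinuousOn (ff c w) (Set.Ioi 0) := by
  unfold ff
  refine continuousOn_const.mul (continuousOn_const.sub ?_)
  unfold Phi
  refine ContinuousOn.div_const ?_ _
  refine GG_cont.comp (rho_cont.comp_continuousOn ?_) ?_
  · exact continuousOn_const.div continuousOn_id fun t ht => (Set.mem_Ioi.1 ht).ne'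
  · intro t ht
    have h0 : 0 ≤ (w : ℝ) / t := div_nonneg (Nat.cast_nonneg _) (Set.mem_Ioi.1 ht).le
    exact ⟨rho_nonneg h0, rho_le_one _⟩

lemma ff_mono {c : ℕ → ℝ} (hc : ∀ w, 0 ≤ c w) (w : ℕ) {s t : ℝ} (hs : 0 < s) (h : s ≤ t) :
    ff c w s ≤ ff c w t := by
  have h1 : (w : ℝ) / t ≤ (w : ℝ) / s := div_le_div_of_nonneg_left (Nat.cast_nonneg _) hs h
  have h0 : 0 ≤ (w : ℝ) / t := div_nonneg (Nat.cast_nonneg _) (hs.le.trans h)
  have h2 := Phi_mono (rho_nonneg h0) (rho_mono h1)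
  exact mul_le_mul_of_nonneg_left (by linarith) (hc w)

lemma ff_zero {c : ℕ → ℝ} (h0 : c 0 = 0) (w : ℕ) {t : ℝ} (ht : 0 < t) (ht4 : t ≤ 4) :
    ff c w t = 0 := by
  unfold ff
  rcases Nat.eq_zero_or_pos w with h | h
  · rw [h, h0, zero_mul]
  · have h1 : (1 : ℝ) ≤ w := by exact_mod_cast h
    have h2 : 1 / 4 ≤ (w : ℝ) / t := by
      rw [div_le_div_iff₀ (by norm_num) ht]
      linarith
    rw [rho_eq_one h2, Phi_one, sub_self, mul_zero]

lemma ff_tendsto (c : ℕ → ℝ) (w : ℕ) : Tendsto (ff c w) atTop (𝓝 (c w)) := by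
  have h1 : Tendsto (fun t : ℝ => (w : ℝ) / t) atTop (𝓝 0) :=
    tendsto_const_nhds.div_atTop tendsto_id
  have h2 : Tendsto (fun t : ℝ => rho ((w : ℝ) / t)) atTop (𝓝 0) := by
    have := (rho_cont.tendsto 0).comp h1
    rwa [rho_zero] at this
  have h3 : Tendsto (fun t : ℝ => 3 * (rho ((w : ℝ) / t)) ^ ((1 : ℝ) / 3)) atTop (𝓝 0) := by
    have := (h2.rpow_const (p := (1 : ℝ) / 3) (Or.inr (by norm_num))).const_mul 3
    rwa [Real.zero_rpow (by norm_num), mul_zero] at this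
  have h4 : Tendsto (fun t : ℝ => GG (rho ((w : ℝ) / t))) atTop (𝓝 0) := by
    refine squeeze_zero' ?_ ?_ h3
    · filter_upwards [eventually_gt_atTop 0] with t ht
      exact GG_nonneg (rho_nonneg (by positivity))
    · filter_upwards [eventually_gt_atTop 0] with t ht
      exact GG_le (rho_nonneg (by positivity))
  have h5 : Tendsto (fun t : ℝ => c w * (1 - GG (rho ((w : ℝ) / t)) / GG 1)) atTop
      (𝓝 (c w * (1 - 0 / GG 1))) := (tendsto_const_nhds.sub (h4.div_const _)).const_mul _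
  have e : c w * (1 - 0 / GG 1) = c w := by rw [zero_div, sub_zero, mul_one]
  rw [e] at h5
  exact h5

/-- the triples with `c ^ 3 ≤ t rad (abc)` -/
def crit (t X : ℝ) : Set (ℕ × ℕ) :=
  {p | p ∈ triples X ∧ ((p.1 + p.2 : ℕ) : ℝ) ^ 3 ≤ t * rad3 p}

lemma crit_iff {X t : ℝ} {p : ℕ × ℕ} (hp : p ∈ triples X) :
    ((p.1 + p.2 : ℕ) : ℝ) ^ 3 ≤ t * rad3 p ↔ Good (rep p) t p := by
  obtain ⟨h1, h2, h3, h4⟩ := hp
  have a1 : (0 : ℝ) < p.1 := by exact_mod_cast h1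
  have a2 : (0 : ℝ) < p.2 := by exact_mod_cast (lt_of_lt_of_le h1 h2)
  have hr : (0 : ℝ) < rep p := by exact_mod_cast rep_pos (X := X) ⟨h1, h2, h3, h4⟩
  have hm : (rep p : ℝ) * rad3 p = (p.1 : ℝ) * p.2 * (p.1 + p.2) := by
    exact_mod_cast rep_mul h3
  unfold Good
  push_cast
  rw [← mul_le_mul_iff_right₀ hr]
  have e1 : (rep p : ℝ) * (t * rad3 p) = t * ((p.1 : ℝ) * p.2) * (p.1 + p.2) := by
    calc (rep p : ℝ) * (t * rad3 p) = t * ((rep p : ℝ) * rad3 p) := by ring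
      _ = _ := by rw [hm]; ring
  have e2 : (rep p : ℝ) * ((p.1 : ℝ) + p.2) ^ 3 =
      (rep p : ℝ) * ((p.1 : ℝ) + p.2) ^ 2 * (p.1 + p.2) := by ring
  rw [e1, e2]
  exact mul_le_mul_iff_left₀ (by positivity)

/-- **The limit law.** -/
theorem main : ∃ (c : ℕ → ℝ) (κ : ℝ), 0 < κ ∧ (∀ w, 0 ≤ c w) ∧ HasSum c κ ∧ c 0 = 0 ∧
    Tendsto (fun X : ℝ => ((triples X).ncard : ℝ) / X ^ ((2 : ℝ) / 3)) atTop (𝓝 κ) ∧
    (∀ w : ℕ, 0 < w → ∀ u : ℝ, 0 ≤ u → u ≤ 1 → Tendsto (fun X : ℝ =>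
      (({p | p ∈ triples X ∧ rep p = w ∧ (p.1 : ℝ) ≤ u * p.2} : Set (ℕ × ℕ)).ncard : ℝ) /
        X ^ ((2 : ℝ) / 3)) atTop (𝓝 (c w * Phi u))) ∧
    (∀ u : ℝ, 0 ≤ u → u ≤ 1 → Tendsto (fun X : ℝ =>
      (({p | p ∈ triples X ∧ (p.1 : ℝ) ≤ u * p.2} : Set (ℕ × ℕ)).ncard : ℝ) /
        X ^ ((2 : ℝ) / 3)) atTop (𝓝 (κ * Phi u))) ∧
    (∀ t : ℝ, 0 < t → Tendsto (fun X : ℝ => ((crit t X).ncard : ℝ) / X ^ ((2 : ℝ) / 3)) atTop
      (𝓝 (∑' w, ff c w t))) := by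
  classical
  choose! lam hlam0 hlam using fun w : ℕ => fun hw : 0 < w => NU_limit hw
  obtain ⟨κ, hκ0, hκ, -⟩ := Pool.Agent.Y911.AA.main
  obtain ⟨c, hc⟩ : ∃ c : ℕ → ℝ, c = fun w : ℕ => if w = 0 then 0 else
      lam w * GG 1 * (w : ℝ) ^ ((2 : ℝ) / 3) := ⟨_, rfl⟩
  have hc0 : c 0 = 0 := by rw [hc]; simp
  have hcw : ∀ w : ℕ, 0 < w → c w = lam w * GG 1 * (w : ℝ) ^ ((2 : ℝ) / 3) := by
    intro w hw
    rw [hc]
    simp only
    rw [if_neg hw.ne']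
  have hcnn : ∀ w, 0 ≤ c w := by
    intro w
    rcases Nat.eq_zero_or_pos w with h | h
    · rw [h, hc0]
    · rw [hcw w h]
      have := hlam0 w h
      have := GG1_pos
      positivity
  have hG := GG1_pos
  -- the joint law
  have hjoint : ∀ w : ℕ, 0 < w → ∀ u : ℝ, 0 ≤ u → u ≤ 1 → Tendsto (fun X : ℝ =>
      (({p | p ∈ triples X ∧ rep p = w ∧ (p.1 : ℝ) ≤ u * p.2} : Set (ℕ × ℕ)).ncard : ℝ) /
        X ^ ((2 : ℝ) / 3)) atTop (𝓝 (c w * Phi u)) := by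
    intro w hw u hu0 hu1
    have h1 := scale hw (hlam w hw u hu0 hu1)
    have e : lam w * GG u * (w : ℝ) ^ ((2 : ℝ) / 3) = c w * Phi u := by
      rw [hcw w hw]
      unfold Phi
      field_simp
    rw [e] at h1
    refine h1.congr' ?_
    filter_upwards [eventually_gt_atTop 0] with X hX
    congr 2
    congr 1
    ext p
    have hs := Set.ext_iff.1 (set_eq w hX) p
    constructor
    · rintro ⟨h2, h3⟩
      have h4 := hs.2 h2
      exact ⟨h4.1, h4.2, h3⟩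
    · rintro ⟨h2, h3, h4⟩
      exact ⟨hs.1 ⟨h2, h3⟩, h4⟩
  -- the law of the ratio
  have hratio : ∀ u : ℝ, 0 ≤ u → u ≤ 1 → Summable (fun w => c w * Phi u) ∧
      Tendsto (fun X : ℝ => (({p | p ∈ triples X ∧ (p.1 : ℝ) ≤ u * p.2} : Set (ℕ × ℕ)).ncard : ℝ) /
        X ^ ((2 : ℝ) / 3)) atTop (𝓝 (∑' w, c w * Phi u)) := by
    intro u hu0 hu1
    refine (sum_law (fun X => {p | p ∈ triples X ∧ (p.1 : ℝ) ≤ u * p.2}) (fun X p hp => hp.1)
      (fun w => c w * Phi u) (fun w hw => ?_) (by rw [hc0, zero_mul])).2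
    refine (hjoint w hw u hu0 hu1).congr fun X => ?_
    congr 2
    congr 1
    ext p
    exact ⟨fun h => ⟨⟨h.1, h.2.2⟩, h.2.1⟩, fun h => ⟨h.1.1, h.2, h.1.2⟩⟩
  have h1 := hratio 1 zero_le_one le_rfl
  rw [Phi_one] at h1
  simp only [mul_one] at h1
  have hset1 : ∀ X : ℝ, ({p | p ∈ triples X ∧ (p.1 : ℝ) ≤ 1 * p.2} : Set (ℕ × ℕ)) = triples X := by
    intro X
    ext p
    refine ⟨fun h => h.1, fun h => ⟨h, ?_⟩⟩
    rw [one_mul]
    exact_mod_cast h.2.1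
  have hκs : ∑' w, c w = κ := by
    refine tendsto_nhds_unique h1.2 ?_
    refine hκ.congr fun X => ?_
    simp only [one_mul]
    congr 2
    congr 1
    ext p
    exact ⟨fun h => ⟨h, by exact_mod_cast h.2.1⟩, fun h => h.1⟩
  refine ⟨c, κ, hκ0, hcnn, hκs ▸ h1.1.hasSum, hc0, hκ, hjoint, ?_, ?_⟩
  · intro u hu0 hu1
    have h2 := (hratio u hu0 hu1).2
    rw [tsum_mul_right, hκs] at h2
    exact h2
  · intro t ht
    refine (sum_law (crit t) (fun X p hp => hp.1) (fun w => ff c w t) (fun w hw => ?_) ?_).2.2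
    · have h2 := scale hw (good_limit (w := w) ht (hlam w hw))
      have e : lam w * (GG 1 - GG (rho (w / t))) * (w : ℝ) ^ ((2 : ℝ) / 3) = ff c w t := by
        unfold ff
        rw [hcw w hw]
        unfold Phi
        field_simp
      rw [e] at h2
      refine h2.congr' ?_
      filter_upwards [eventually_gt_atTop 0] with X hX
      congr 2
      congr 1
      ext p
      have hs := Set.ext_iff.1 (set_eq w hX) p
      constructor
      · rintro ⟨h3, h4⟩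
        have h5 := hs.2 h3
        refine ⟨⟨h5.1, ?_⟩, h5.2⟩
        rw [crit_iff h5.1, h5.2]
        exact h4
      · rintro ⟨⟨h3, h4⟩, h5⟩
        refine ⟨hs.1 ⟨h3, h5⟩, ?_⟩
        rw [crit_iff h3, h5] at h4
        exact h4
    · simp only [ff]
      rw [hc0, zero_mul]

end Pool.Agent.R465.LL
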