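import Pool.Agent.R465.LL.Lim

set_option autoImplicit false

/-!
# The condition `w (a + b) ^ 2 ≤ t a b` in terms of the ratio
-/

namespace Pool.Agent.R465.LL

open Finset Filter Topology Pool.Agent.TH498.AR

/-- the smaller root `r` of `s (1 + r) ^ 2 = r` for `0 ≤ s ≤ 1 / 4`, and `1` for `s ≥ 1 / 4` -/
noncomputable def rho (s : ℝ) : ℝ :=
  (1 - Real.sqrt (1 - 4 * s)) / (1 + Real.sqrt (1 - 4 * s))

lemma sqrt_le_one' {s : ℝ} (hs : 0 ≤ s) : Real.sqrt (1 - 4 * s) ≤ 1 := by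
  rw [Real.sqrt_le_left zero_le_one]
  linarith

lemma rho_nonneg {s : ℝ} (hs : 0 ≤ s) : 0 ≤ rho s := by
  unfold rho
  have := sqrt_le_one' hs
  have := Real.sqrt_nonneg (1 - 4 * s)
  exact div_nonneg (by linarith) (by linarith)

lemma rho_pos {s : ℝ} (hs : 0 < s) : 0 < rho s := by
  unfold rho
  have h1 : Real.sqrt (1 - 4 * s) < 1 := by
    rw [Real.sqrt_lt' one_pos]
    linarith
  have := Real.sqrt_nonneg (1 - 4 * s)
  exact div_pos (by linarith) (by linarith)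

lemma rho_le_one (s : ℝ) : rho s ≤ 1 := by
  unfold rho
  have := Real.sqrt_nonneg (1 - 4 * s)
  rw [div_le_one (by linarith)]
  linarith

lemma rho_eq_one {s : ℝ} (hs : 1 / 4 ≤ s) : rho s = 1 := by
  unfold rho
  rw [Real.sqrt_eq_zero_of_nonpos (by linarith)]
  norm_num

lemma rho_zero : rho 0 = 0 := by
  unfold rho
  simp

lemma rho_cont : Continuous rho := by
  unfold rho
  refine Continuous.div (by fun_prop) (by fun_prop) fun s => ?_
  have := Real.sqrt_nonneg (1 - 4 * s)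
  linarith

lemma rho_mono {s t : ℝ} (h : s ≤ t) : rho s ≤ rho t := by
  unfold rho
  have h1 : Real.sqrt (1 - 4 * t) ≤ Real.sqrt (1 - 4 * s) := Real.sqrt_le_sqrt (by linarith)
  have h2 := Real.sqrt_nonneg (1 - 4 * t)
  have h3 := Real.sqrt_nonneg (1 - 4 * s)
  rw [div_le_div_iff₀ (by linarith) (by linarith)]
  nlinarith

lemma cond_iff {s r : ℝ} (hs1 : s ≤ 1 / 4) (hr : 0 ≤ r) (hr1 : r ≤ 1) :
    s * (1 + r) ^ 2 ≤ r ↔ rho s ≤ r := by
  obtain ⟨y, hy⟩ : ∃ y : ℝ, y = Real.sqrt (1 - 4 * s) := ⟨_, rfl⟩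
  have hy0 : 0 ≤ y := by rw [hy]; exact Real.sqrt_nonneg _
  have hy2 : y ^ 2 = 1 - 4 * s := by rw [hy]; exact Real.sq_sqrt (by linarith)
  unfold rho
  rw [← hy, div_le_iff₀ (by linarith)]
  have e : r - s * (1 + r) ^ 2 = (y ^ 2 * (1 + r) ^ 2 - (1 - r) ^ 2) / 4 := by
    rw [hy2]; ring
  have h1 : s * (1 + r) ^ 2 ≤ r ↔ (1 - r) ^ 2 ≤ (y * (1 + r)) ^ 2 := by
    rw [mul_pow]
    constructor <;> intro h <;> linarith
  rw [h1, sq_le_sq₀ (by linarith) (by positivity)]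
  constructor <;> intro h <;> linarith

lemma not_cond {s r : ℝ} (hs1 : 1 / 4 < s) (hr : 0 ≤ r) : ¬ s * (1 + r) ^ 2 ≤ r := by
  intro h
  have h1 : 1 / 4 * (1 + r) ^ 2 < s * (1 + r) ^ 2 := mul_lt_mul_of_pos_right hs1 (by positivity)
  nlinarith [sq_nonneg (1 - r)]

/-- the condition `c ^ 3 ≤ t rad (abc)` for a triple with repeated part `w` -/
def Good (w : ℕ) (t : ℝ) (p : ℕ × ℕ) : Prop :=
  (w : ℝ) * ((p.1 : ℝ) + p.2) ^ 2 ≤ t * ((p.1 : ℝ) * p.2)

lemma good_iff {w : ℕ} {t : ℝ} (ht : 0 < t) {p : ℕ × ℕ} (h2 : 0 < p.2) :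
    Good w t p ↔ (w / t) * (1 + (p.1 : ℝ) / p.2) ^ 2 ≤ (p.1 : ℝ) / p.2 := by
  have hb : (0 : ℝ) < p.2 := by exact_mod_cast h2
  unfold Good
  have e1 : (w / t) * (1 + (p.1 : ℝ) / p.2) ^ 2 =
      ((w : ℝ) * ((p.1 : ℝ) + p.2) ^ 2) / (t * (p.2 : ℝ) ^ 2) := by
    field_simp
    ring
  have e2 : (p.1 : ℝ) / p.2 = (t * ((p.1 : ℝ) * p.2)) / (t * (p.2 : ℝ) ^ 2) := by
    field_simp
  rw [e1]
  conv_rhs => rw [e2]
  exact (div_le_div_iff_of_pos_right (by positivity)).symm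

/-- **The law of `c ^ 3 / rad (abc)` for a given repeated part.** -/
theorem good_limit {w : ℕ} {t lam : ℝ} (ht : 0 < t) (hlam : ∀ u : ℝ, 0 ≤ u → u ≤ 1 →
    Tendsto (fun x : ℝ => ((NU w u x).ncard : ℝ) / x ^ 2) atTop (𝓝 (lam * GG u))) :
    Tendsto (fun x : ℝ => (({p | p ∈ Nw w x ∧ Good w t p} : Set (ℕ × ℕ)).ncard : ℝ) / x ^ 2) atTop
      (𝓝 (lam * (GG 1 - GG (rho (w / t))))) := by
  have hs0 : 0 ≤ (w : ℝ) / t := by positivity
  have hr0 := rho_nonneg hs0
  have hr1 := rho_le_one ((w : ℝ) / t)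
  have h1 := hlam 1 zero_le_one le_rfl
  have h2 := hlam _ hr0 hr1
  have hNU1 : ∀ x : ℝ, NU w 1 x = Nw w x := by
    intro x
    ext p
    refine ⟨fun h => h.1, fun h => ⟨h, ?_⟩⟩
    rw [one_mul]
    exact_mod_cast h.2.1
  simp only [hNU1] at h1
  have h3 : Tendsto (fun x : ℝ => ((Nw w x).ncard : ℝ) / x ^ 2 -
      ((NU w (rho (w / t)) x).ncard : ℝ) / x ^ 2) atTop
      (𝓝 (lam * (GG 1 - GG (rho (w / t))))) := by
    have := h1.sub h2
    rwa [← mul_sub] at this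
  have hx : Tendsto (fun x : ℝ => 1 / x ^ 2) atTop (𝓝 0) :=
    tendsto_const_nhds.div_atTop (tendsto_pow_atTop (by norm_num))
  have h4 := h3.add hx
  rw [add_zero] at h4
  refine tendsto_of_tendsto_of_tendsto_of_le_of_le' h3 h4 ?_ ?_
  all_goals
    filter_upwards [eventually_gt_atTop 0] with x hx0
    have hx2 : (0 : ℝ) < x ^ 2 := by positivity
    have hSf : ({p | p ∈ Nw w x ∧ Good w t p} : Set (ℕ × ℕ)).Finite :=
      (Nw_finite w x).subset fun p hp => hp.1
    have hRf := NU_finite w (rho (w / t)) x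
    have hun : ({p | p ∈ Nw w x ∧ Good w t p} : Set (ℕ × ℕ)) ∪ NU w (rho (w / t)) x = Nw w x := by
      ext p
      constructor
      · rintro (h | h)
        · exact h.1
        · exact h.1
      · intro h
        obtain ⟨a1, a2, -⟩ := id h
        have b2 : 0 < p.2 := by omega
        have b2' : (0 : ℝ) < p.2 := by exact_mod_cast b2
        rcases le_or_gt (p.1 : ℝ) (rho (w / t) * p.2) with hc | hc
        · exact Or.inr ⟨h, hc⟩
        · left
          refine ⟨h, ?_⟩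
          rw [good_iff ht b2]
          have hle : (p.1 : ℝ) / p.2 ≤ 1 := by
            rw [div_le_one b2']
            exact_mod_cast a2
          have hgt : rho (w / t) < (p.1 : ℝ) / p.2 := by
            rw [lt_div_iff₀ b2']
            exact hc
          have hs : (w : ℝ) / t ≤ 1 / 4 := by
            by_contra hcon
            push Not at hcon
            rw [rho_eq_one hcon.le] at hgt
            linarith
          exact (cond_iff hs (by positivity) hle).2 hgt.le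
    have hin : (({p | p ∈ Nw w x ∧ Good w t p} : Set (ℕ × ℕ)) ∩
        NU w (rho (w / t)) x).ncard ≤ 1 := by
      rw [Set.ncard_le_one (hSf.inter_of_left _)]
      have key : ∀ p ∈ ({p | p ∈ Nw w x ∧ Good w t p} : Set (ℕ × ℕ)) ∩ NU w (rho (w / t)) x,
          0 < p.1 ∧ 0 < p.2 ∧ Nat.Coprime p.1 p.2 ∧ (p.1 : ℝ) / p.2 = rho (w / t) := by
        rintro p ⟨⟨h, hg⟩, -, hle⟩
        obtain ⟨a1, a2, a3, -⟩ := id h
        have b2 : 0 < p.2 := by omega
        have b2' : (0 : ℝ) < p.2 := by exact_mod_cast b2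
        refine ⟨a1, b2, a3, ?_⟩
        rw [good_iff ht b2] at hg
        have hle1 : (p.1 : ℝ) / p.2 ≤ 1 := by
          rw [div_le_one b2']
          exact_mod_cast a2
        have hs : (w : ℝ) / t ≤ 1 / 4 := by
          by_contra hcon
          push Not at hcon
          exact not_cond hcon (by positivity) hg
        refine le_antisymm ?_ ((cond_iff hs (by positivity) hle1).1 hg)
        rw [div_le_iff₀ b2']
        exact hle
      intro p hp q hq
      obtain ⟨a1, a2, a3, a4⟩ := key p hp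
      obtain ⟨b1, b2, b3, b4⟩ := key q hq
      have a2' : (0 : ℝ) < p.2 := by exact_mod_cast a2
      have b2' : (0 : ℝ) < q.2 := by exact_mod_cast b2
      have h5 : (p.1 : ℝ) * q.2 = q.1 * p.2 := by
        have := a4.trans b4.symm
        rwa [div_eq_div_iff a2'.ne' b2'.ne'] at this
      have h6 : p.1 * q.2 = q.1 * p.2 := by exact_mod_cast h5
      have h7 : p.1 ∣ q.1 := by
        refine a3.dvd_of_dvd_mul_right (n := p.2) ?_
        exact ⟨q.2, h6.symm⟩
      have h8 : q.1 ∣ p.1 := by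
        refine b3.dvd_of_dvd_mul_right (n := q.2) ?_
        exact ⟨p.2, h6⟩
      have h9 := Nat.dvd_antisymm h7 h8
      rw [h9] at h6
      have h10 := Nat.eq_of_mul_eq_mul_left b1 h6
      exact Prod.ext h9 h10.symm
    have hcard := Set.ncard_union_add_ncard_inter
      ({p | p ∈ Nw w x ∧ Good w t p} : Set (ℕ × ℕ)) (NU w (rho (w / t)) x) hSf hRf
    rw [hun] at hcard
    have hcard' : ((Nw w x).ncard : ℝ) + ((({p | p ∈ Nw w x ∧ Good w t p} : Set (ℕ × ℕ)) ∩
        NU w (rho (w / t)) x).ncard : ℝ) =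
        (({p | p ∈ Nw w x ∧ Good w t p} : Set (ℕ × ℕ)).ncard : ℝ) +
          ((NU w (rho (w / t)) x).ncard : ℝ) := by exact_mod_cast hcard
    have hin' : ((({p | p ∈ Nw w x ∧ Good w t p} : Set (ℕ × ℕ)) ∩
        NU w (rho (w / t)) x).ncard : ℝ) ≤ 1 := by exact_mod_cast hin
    have hin0 : (0 : ℝ) ≤ ((({p | p ∈ Nw w x ∧ Good w t p} : Set (ℕ × ℕ)) ∩
        NU w (rho (w / t)) x).ncard : ℝ) := Nat.cast_nonneg _
  · rw [← sub_div]
    refine div_le_div_of_nonneg_right ?_ hx2.le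
    linarith
  · rw [← sub_div, ← add_div]
    refine div_le_div_of_nonneg_right ?_ hx2.le
    linarith

end Pool.Agent.R465.LL
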