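import Pool.Agent.R465.LL.Sec
import Pool.Agent.TH498.AR.Loc2

set_option autoImplicit false

/-!
# The triples with a given repeated part: the law of the ratio `a / b`
-/

namespace Pool.Agent.R465.LL

open Finset Filter Topology Pool.Agent.TH498.AR

/-- the pairs with repeated part `w`, `a b (a + b) ≤ x ^ 3` and `a ≤ u b` -/
def NU (w : ℕ) (u x : ℝ) : Set (ℕ × ℕ) := {p | p ∈ Nw w x ∧ (p.1 : ℝ) ≤ u * p.2}

lemma Nw_sub (w : ℕ) (x : ℝ) : Nw w x ⊆ VV x := fun _ hp => ⟨hp.1, hp.2.1, hp.2.2.2.2⟩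

lemma Nw_finite (w : ℕ) (x : ℝ) : (Nw w x).Finite := (VV_finite x).subset (Nw_sub w x)

lemma NU_finite (w : ℕ) (u x : ℝ) : (NU w u x).Finite := (Nw_finite w x).subset fun _ hp => hp.1

/-- a small ratio puts the pair into the cusp -/
lemma cusp_of {η x : ℝ} (hη : 0 < η) (hη1 : η < 1) (hx : 1 ≤ x) {p : ℕ × ℕ} (hp : p ∈ VV x)
    (h : (p.1 : ℝ) ≤ η ^ 2 * p.2) : (p.1 : ℝ) < η * x := by
  have h1 := VV_le hp
  have h2 : (0 : ℝ) < p.1 := by exact_mod_cast hp.1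
  have h3 : (0 : ℝ) < p.2 := by exact_mod_cast (lt_of_lt_of_le hp.1 hp.2.1)
  have hx0 : 0 < x := by linarith
  by_contra hcon
  push Not at hcon
  have h4 : (η * x) ^ 3 ≤ (p.1 : ℝ) ^ 3 := pow_le_pow_left₀ (by positivity) hcon 3
  have h5 : (p.1 : ℝ) ^ 2 ≤ η ^ 4 * (p.2 : ℝ) ^ 2 := by
    have := pow_le_pow_left₀ h2.le h 2
    nlinarith
  have h6 : (p.1 : ℝ) ^ 3 ≤ η ^ 4 * x ^ 3 := by
    calc (p.1 : ℝ) ^ 3 = p.1 * (p.1 : ℝ) ^ 2 := by ring
      _ ≤ p.1 * (η ^ 4 * (p.2 : ℝ) ^ 2) := mul_le_mul_of_nonneg_left h5 h2.le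
      _ = η ^ 4 * (p.1 * (p.2 : ℝ) ^ 2) := by ring
      _ ≤ η ^ 4 * x ^ 3 := mul_le_mul_of_nonneg_left h1 (by positivity)
  have h7 : η ^ 4 * x ^ 3 < η ^ 3 * x ^ 3 := by
    refine mul_lt_mul_of_pos_right ?_ (by positivity)
    calc η ^ 4 = η * η ^ 3 := by ring
      _ < 1 * η ^ 3 := mul_lt_mul_of_pos_right hη1 (by positivity)
      _ = η ^ 3 := one_mul _
  nlinarith

/-- **The approximation**, with a constant which does not depend on the ratio. -/
theorem NU_approx {w : ℕ} (hw : 0 < w) {ε : ℝ} (hε : 0 < ε) : ∃ L : ℝ, ∀ u : ℝ, 0 ≤ u → u ≤ 1 →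
    ∃ C : ℝ, ∀ x : ℝ, 1 ≤ x →
      |((NU w u x).ncard : ℝ) - L * GG u * x ^ 2| ≤ ε * x ^ 2 + C * (x + 1) := by
  classical
  -- the parameters
  obtain ⟨e, he⟩ : ∃ e : ℝ, e = min ε 1 := ⟨_, rfl⟩
  have he0 : 0 < e := by rw [he]; positivity
  have he1 : e ≤ 1 := by rw [he]; exact min_le_right _ _
  have heε : e ≤ ε := by rw [he]; exact min_le_left _ _
  obtain ⟨η, hη⟩ : ∃ η : ℝ, η = (e / 24) ^ 2 := ⟨_, rfl⟩
  have hη0 : 0 < η := by rw [hη]; positivity
  have hη1 : η < 1 := by rw [hη]; nlinarith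
  have hηs : 2 * Real.sqrt η ≤ ε / 8 := by
    rw [hη, Real.sqrt_sq (by positivity)]
    linarith
  have hδ0 : 0 < η ^ 2 := by positivity
  have hδ1 : η ^ 2 ≤ 1 := by nlinarith
  have hGδ : GG (η ^ 2) ≤ ε / 8 := by
    refine (GG_le hδ0.le).trans ?_
    have h1 : η ^ 2 ≤ (e / 24) ^ 3 := by
      rw [hη]
      calc ((e / 24) ^ 2) ^ 2 = (e / 24) ^ 3 * (e / 24) := by ring
        _ ≤ (e / 24) ^ 3 * 1 := mul_le_mul_of_nonneg_left (by linarith) (by positivity)
        _ = _ := mul_one _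
    have h2 : (η ^ 2) ^ ((1 : ℝ) / 3) ≤ e / 24 := by
      calc (η ^ 2) ^ ((1 : ℝ) / 3) ≤ ((e / 24) ^ 3) ^ ((1 : ℝ) / 3) :=
            Real.rpow_le_rpow hδ0.le h1 (by norm_num)
        _ = e / 24 := by
            rw [← Real.rpow_natCast, ← Real.rpow_mul (by positivity)]
            norm_num
    linarith
  have hGδ0 : 0 ≤ GG (η ^ 2) := GG_nonneg hδ0.le
  obtain ⟨P0, hP0⟩ : ∃ P0 : ℕ, P0 = max (w + 1) ⌈40 / (η * ε)⌉₊ := ⟨_, rfl⟩
  have hP0w : w + 1 ≤ P0 := by rw [hP0]; exact le_max_left _ _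
  have hP0pos : (0 : ℝ) < P0 := by exact_mod_cast (by omega : 0 < P0)
  have hP0e : 5 / (η * P0) ≤ ε / 8 := by
    have h1 : 40 / (η * ε) ≤ P0 := by
      refine (Nat.le_ceil _).trans ?_
      rw [hP0]
      exact_mod_cast le_max_right _ _
    rw [div_le_iff₀ (by positivity)] at h1
    rw [div_le_iff₀ (by positivity)]
    nlinarith
  obtain ⟨Q, hQ⟩ : ∃ Q : ℕ, Q = Qm w P0 := ⟨_, rfl⟩
  have hQ0 : 0 < Q := by rw [hQ]; exact Qm_pos _ _
  have hQ0' : (0 : ℝ) < Q := by exact_mod_cast hQ0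
  set T : Finset (ℕ × ℕ) := (range Q ×ˢ range Q).filter (fun t => Rloc w P0 t) with hT
  have hTc : (T.card : ℝ) ≤ Q ^ 2 := by
    have : T.card ≤ Q ^ 2 := by
      refine (card_filter_le _ _).trans ?_
      rw [card_product, card_range, sq]
    exact_mod_cast this
  obtain ⟨L, hL⟩ : ∃ L : ℝ, L = T.card / (2 * Q ^ 2) := ⟨_, rfl⟩
  have hL0 : 0 ≤ L := by rw [hL]; positivity
  have hL1 : L ≤ 1 / 2 := by
    rw [hL, div_le_iff₀ (by positivity)]
    linarith
  refine ⟨L, fun u hu0 hu1 => ?_⟩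
  rcases le_or_gt u (η ^ 2) with hu | hu
  · -- small ratio
    refine ⟨0, fun x hx => ?_⟩
    have h1 : (((NU_finite w u x).toFinset).card : ℝ) ≤ 2 * Real.sqrt η * x ^ 2 := by
      refine cusp_count hη0 hx _ fun p hp => ?_
      rw [Set.Finite.mem_toFinset] at hp
      have hV := Nw_sub w x hp.1
      refine ⟨hV, cusp_of hη0 hη1 hx hV (hp.2.trans ?_)⟩
      exact mul_le_mul_of_nonneg_right hu (Nat.cast_nonneg _)
    rw [← Set.ncard_eq_toFinset_card _ (NU_finite w u x)] at h1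
    have h2 : GG u ≤ ε / 8 := (GG_mono hu0 hu).trans hGδ
    have h3 : 0 ≤ GG u := GG_nonneg hu0
    have hx2 : 0 ≤ x ^ 2 := by positivity
    have h4 : 2 * Real.sqrt η * x ^ 2 ≤ ε / 8 * x ^ 2 := mul_le_mul_of_nonneg_right hηs hx2
    have h5 : L * GG u * x ^ 2 ≤ ε / 8 * x ^ 2 := by
      refine mul_le_mul_of_nonneg_right ?_ hx2
      nlinarith
    have h6 : 0 ≤ L * GG u * x ^ 2 := by positivity
    have h7 : (0 : ℝ) ≤ (NU w u x).ncard := Nat.cast_nonneg _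
    have h8 : 0 ≤ ε * x ^ 2 := by positivity
    rw [abs_le]
    constructor <;> nlinarith
  · -- the main case
    obtain ⟨ε', hε'⟩ : ∃ ε' : ℝ, ε' = ε / (8 * (T.card + 1)) := ⟨_, rfl⟩
    have hε'0 : 0 < ε' := by rw [hε']; positivity
    have hTε : (T.card : ℝ) * ε' ≤ ε / 8 := by
      have : (0 : ℝ) < T.card + 1 := by positivity
      rw [hε', mul_div_assoc', div_le_div_iff₀ (by positivity) (by norm_num)]
      nlinarith
    obtain ⟨C1, hC1, hsec⟩ := sector_asy hδ0 hu.le hu1 hQ0 hε'0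
    refine ⟨T.card * C1, fun x hx => ?_⟩
    have hx0 : 0 < x := by linarith
    have hx2 : 0 ≤ x ^ 2 := by positivity
    set NF : Finset (ℕ × ℕ) := (NU_finite w u x).toFinset with hNF
    set UF : Finset (ℕ × ℕ) := T.biUnion (fun t => Sct (η ^ 2) u Q t.1 t.2 x) with hUF
    have hNc : ((NU w u x).ncard : ℝ) = (NF.card : ℝ) := by
      rw [hNF, Set.ncard_eq_toFinset_card _ (NU_finite w u x)]
    have hUc : (UF.card : ℝ) = ∑ t ∈ T, ((Sct (η ^ 2) u Q t.1 t.2 x).card : ℝ) := by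
      rw [hUF, card_biUnion]
      · push_cast
        rfl
      · intro t ht t' ht' hne
        rw [Function.onFun, disjoint_left]
        intro p hp hp'
        rw [mem_Sct hδ0 hu.le hx0.le] at hp hp'
        apply hne
        have u1 := (mem_product.1 (mem_filter.1 ht).1)
        have u2 := (mem_product.1 (mem_filter.1 ht').1)
        rw [mem_range, mem_range] at u1 u2
        have v1 := hp.2.2.2.1.symm.trans hp'.2.2.2.1
        have v2 := hp.2.2.2.2.symm.trans hp'.2.2.2.2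
        rw [Nat.mod_eq_of_lt u1.1, Nat.mod_eq_of_lt u2.1] at v1
        rw [Nat.mod_eq_of_lt u1.2, Nat.mod_eq_of_lt u2.2] at v2
        exact Prod.ext v1 v2
    have hU : |(UF.card : ℝ) - L * (GG u - GG (η ^ 2)) * x ^ 2| ≤
        ε / 8 * x ^ 2 + T.card * C1 * (x + 1) := by
      have e1 : L * (GG u - GG (η ^ 2)) * x ^ 2 =
          ∑ _t ∈ T, (GG u - GG (η ^ 2)) / (2 * Q ^ 2) * x ^ 2 := by
        rw [sum_const, nsmul_eq_mul, hL]
        ring
      rw [hUc, e1, ← sum_sub_distrib]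
      refine (abs_sum_le_sum_abs _ _).trans ((sum_le_sum fun t _ => hsec t.1 t.2 x hx0.le).trans ?_)
      rw [sum_const, nsmul_eq_mul]
      have : (T.card : ℝ) * (ε' * x ^ 2 + C1 * (x + 1)) =
          (T.card : ℝ) * ε' * x ^ 2 + T.card * C1 * (x + 1) := by ring
      rw [this]
      have := mul_le_mul_of_nonneg_right hTε hx2
      linarith
    -- the differences
    have hd1 : ((NF \ UF).card : ℝ) ≤ 2 * Real.sqrt η * x ^ 2 := by
      refine cusp_count hη0 hx _ fun p hp => ?_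
      obtain ⟨hpN, hpU⟩ := Finset.mem_sdiff.1 hp
      rw [hNF, Set.Finite.mem_toFinset] at hpN
      have hV := Nw_sub w x hpN.1
      obtain ⟨⟨a1, a2, a3, a4, a5⟩, a6⟩ := hpN
      refine ⟨hV, cusp_of hη0 hη1 hx hV ?_⟩
      by_contra hcon
      push Not at hcon
      apply hpU
      rw [hUF, mem_biUnion]
      refine ⟨(p.1 % Q, p.2 % Q), ?_, ?_⟩
      · rw [hT, mem_filter, mem_product, mem_range, mem_range]
        refine ⟨⟨Nat.mod_lt _ hQ0, Nat.mod_lt _ hQ0⟩, ?_⟩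
        refine Rloc_congr hw (p := p) ?_ ?_ (Rloc_of hw a1 (by omega) a3 a4)
        · rw [← hQ, Nat.mod_mod]
        · rw [← hQ, Nat.mod_mod]
      · rw [mem_Sct hδ0 hu.le hx0.le]
        exact ⟨hcon, a6, a5, (Nat.mod_mod _ _).symm, (Nat.mod_mod _ _).symm⟩
    have hUV : ∀ p ∈ UF \ NF, p ∈ VV x ∧ ∃ q : ℕ, q.Prime ∧ P0 < q ∧
        ((q ∣ p.1 ∧ q ∣ p.2) ∨ q ^ 2 ∣ nn p) := by
      intro p hp
      obtain ⟨hpU, hpN⟩ := Finset.mem_sdiff.1 hp
      rw [hUF, mem_biUnion] at hpU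
      obtain ⟨t, ht, hpt⟩ := hpU
      rw [mem_Sct hδ0 hu.le hx0.le] at hpt
      obtain ⟨a1, a2, a3, a4, a5⟩ := hpt
      have b0 : (0 : ℝ) ≤ p.2 := Nat.cast_nonneg _
      have c1 : (0 : ℝ) < p.1 := lt_of_le_of_lt (by positivity) a1
      have c2 : (p.1 : ℝ) ≤ p.2 := a2.trans (by nlinarith)
      have c1' : 0 < p.1 := by exact_mod_cast c1
      have c2' : p.1 ≤ p.2 := by exact_mod_cast c2
      refine ⟨⟨c1', c2', a3⟩, ?_⟩
      by_contra hcon
      push Not at hcon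
      apply hpN
      rw [hNF, Set.Finite.mem_toFinset]
      have hR : Rloc w P0 p := by
        refine Rloc_congr hw (p := t) ?_ ?_ (mem_filter.1 ht).2
        · rw [← hQ]; exact a4.symm
        · rw [← hQ]; exact a5.symm
      obtain ⟨b1, b2⟩ := of_Rloc hw (by omega) c1' (by omega) hR (by
        intro q hq hqP
        obtain ⟨c1, c2⟩ := hcon q hq hqP
        exact ⟨fun h => c1 h.1 h.2, c2⟩)
      exact ⟨⟨c1', c2', b1, b2, a3⟩, a2⟩
    have hd2 : ((UF \ NF).card : ℝ) ≤ 2 * Real.sqrt η * x ^ 2 + 5 * x ^ 2 / (η * P0) := by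
      have hs := card_filter_add_card_filter_not (s := UF \ NF) (fun p => (p.1 : ℝ) < η * x)
      have k1 : ((((UF \ NF).filter (fun p => (p.1 : ℝ) < η * x)).card : ℕ) : ℝ) ≤
          2 * Real.sqrt η * x ^ 2 := by
        refine cusp_count hη0 hx _ fun p hp => ?_
        obtain ⟨h1, h2⟩ := mem_filter.1 hp
        exact ⟨(hUV p h1).1, h2⟩
      have k2 : ((((UF \ NF).filter (fun p => ¬ (p.1 : ℝ) < η * x)).card : ℕ) : ℝ) ≤
          5 * x ^ 2 / (η * P0) := by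
        refine bad_count hη0 hx (by omega) _ fun p hp => ?_
        obtain ⟨h1, h2⟩ := mem_filter.1 hp
        exact ⟨(hUV p h1).1, not_lt.1 h2, (hUV p h1).2⟩
      have : ((UF \ NF).card : ℝ) = (((UF \ NF).filter (fun p => (p.1 : ℝ) < η * x)).card : ℝ) +
          (((UF \ NF).filter (fun p => ¬ (p.1 : ℝ) < η * x)).card : ℝ) := by exact_mod_cast hs.symm
      rw [this]
      linarith
    have hd3 : |(NF.card : ℝ) - UF.card| ≤ (NF \ UF).card + (UF \ NF).card := by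
      have e1 : (NF.card : ℝ) ≤ UF.card + (NF \ UF).card := by
        have : NF.card ≤ UF.card + (NF \ UF).card := by
          have := card_le_card_sdiff_add_card (s := NF) (t := UF)
          omega
        exact_mod_cast this
      have e2 : (UF.card : ℝ) ≤ NF.card + (UF \ NF).card := by
        have : UF.card ≤ NF.card + (UF \ NF).card := by
          have := card_le_card_sdiff_add_card (s := UF) (t := NF)
          omega
        exact_mod_cast this
      have n1 : (0 : ℝ) ≤ ((NF \ UF).card : ℝ) := Nat.cast_nonneg _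
      have n2 : (0 : ℝ) ≤ ((UF \ NF).card : ℝ) := Nat.cast_nonneg _
      rw [abs_le]
      constructor <;> linarith
    rw [hNc]
    have e : (NF.card : ℝ) - L * GG u * x ^ 2 =
        (NF.card - UF.card) + (UF.card - L * (GG u - GG (η ^ 2)) * x ^ 2) -
          L * GG (η ^ 2) * x ^ 2 := by ring
    rw [e]
    refine (abs_sub _ _).trans ?_
    have h9 := abs_add_le ((NF.card : ℝ) - UF.card)
      ((UF.card : ℝ) - L * (GG u - GG (η ^ 2)) * x ^ 2)
    have h10 : |L * GG (η ^ 2) * x ^ 2| ≤ ε / 8 * x ^ 2 := by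
      rw [abs_of_nonneg (by positivity)]
      refine mul_le_mul_of_nonneg_right ?_ hx2
      nlinarith
    have h5 : 5 * x ^ 2 / (η * P0) = 5 / (η * P0) * x ^ 2 := by ring
    have h6 : 5 / (η * P0) * x ^ 2 ≤ ε / 8 * x ^ 2 := mul_le_mul_of_nonneg_right hP0e hx2
    have h7 : 2 * Real.sqrt η * x ^ 2 ≤ ε / 8 * x ^ 2 := mul_le_mul_of_nonneg_right hηs hx2
    have h8 : 0 ≤ ε * x ^ 2 := by positivity
    linarith

lemma ev_of {N : ℝ → ℝ} {A ε C : ℝ} (hε : 0 < ε)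
    (h : ∀ x : ℝ, 1 ≤ x → |N x - A * x ^ 2| ≤ ε * x ^ 2 + C * (x + 1)) :
    ∀ᶠ x in atTop, |N x / x ^ 2 - A| ≤ 2 * ε := by
  filter_upwards [eventually_ge_atTop (max 1 (2 * |C| / ε))] with x hx
  have hx1 : 1 ≤ x := (le_max_left _ _).trans hx
  have hx2 : 2 * |C| / ε ≤ x := (le_max_right _ _).trans hx
  have hx0 : 0 < x := by linarith
  have h1 := h x hx1
  have e : N x / x ^ 2 - A = (N x - A * x ^ 2) / x ^ 2 := by
    field_simp
  rw [e, abs_div, abs_of_pos (by positivity : 0 < x ^ 2), div_le_iff₀ (by positivity)]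
  rw [div_le_iff₀ hε] at hx2
  have h2 : C * (x + 1) ≤ ε * x ^ 2 := by
    have h3 := le_abs_self C
    have h4 := abs_nonneg C
    calc C * (x + 1) ≤ |C| * (x + x) :=
          mul_le_mul h3 (by linarith) (by linarith) h4
      _ = (2 * |C|) * x := by ring
      _ ≤ x * ε * x := mul_le_mul_of_nonneg_right hx2 hx0.le
      _ = ε * x ^ 2 := by ring
  linarith

/-- **The law of the ratio for a given repeated part.** -/
theorem NU_limit {w : ℕ} (hw : 0 < w) : ∃ lam : ℝ, 0 ≤ lam ∧ ∀ u : ℝ, 0 ≤ u → u ≤ 1 →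
    Tendsto (fun x : ℝ => ((NU w u x).ncard : ℝ) / x ^ 2) atTop (𝓝 (lam * GG u)) := by
  obtain ⟨κ, hκ⟩ := Nw_limit hw
  have hG1 : 0 < GG 1 := GG_pos one_pos
  have hκ0 : 0 ≤ κ := ge_of_tendsto' hκ fun x => by positivity
  have hNU1 : ∀ x : ℝ, NU w 1 x = Nw w x := by
    intro x
    ext p
    refine ⟨fun h => h.1, fun h => ⟨h, ?_⟩⟩
    rw [one_mul]
    exact_mod_cast h.2.1
  refine ⟨κ / GG 1, by positivity, fun u hu0 hu1 => ?_⟩
  rw [Metric.tendsto_nhds]
  intro ε hε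
  obtain ⟨L, hL⟩ := NU_approx hw (ε := ε / 8) (by positivity)
  obtain ⟨C1, h1⟩ := hL 1 zero_le_one le_rfl
  obtain ⟨C2, h2⟩ := hL u hu0 hu1
  have e1 := ev_of (by positivity) h1
  have e2 := ev_of (by positivity) h2
  have hLκ : |κ - L * GG 1| ≤ 2 * (ε / 8) := by
    have h3 : Tendsto (fun x : ℝ => |((NU w 1 x).ncard : ℝ) / x ^ 2 - L * GG 1|) atTop
        (𝓝 |κ - L * GG 1|) := by
      simp only [hNU1]
      exact (hκ.sub_const _).abs
    exact le_of_tendsto h3 e1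
  filter_upwards [e2] with x hx
  rw [Real.dist_eq]
  have hGu0 := GG_nonneg hu0
  have hGu1 := GG_mono hu0 hu1
  have e : ((NU w u x).ncard : ℝ) / x ^ 2 - κ / GG 1 * GG u =
      (((NU w u x).ncard : ℝ) / x ^ 2 - L * GG u) + (L * GG 1 - κ) * (GG u / GG 1) := by
    field_simp
    ring
  rw [e]
  refine (abs_add_le _ _).trans_lt ?_
  have h4 : |(L * GG 1 - κ) * (GG u / GG 1)| ≤ 2 * (ε / 8) := by
    rw [abs_mul, abs_sub_comm]
    have h5 : |GG u / GG 1| ≤ 1 := by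
      rw [abs_of_nonneg (by positivity), div_le_one hG1]
      exact hGu1
    calc |κ - L * GG 1| * |GG u / GG 1| ≤ 2 * (ε / 8) * 1 :=
          mul_le_mul hLκ h5 (abs_nonneg _) (by positivity)
      _ = _ := mul_one _
  linarith

end Pool.Agent.R465.LL
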