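import Pool.Agent.R465.LL.Tri

set_option autoImplicit false

/-!
# Sectors below the curve `a b (a + b) = x ^ 3` in a residue class
-/

namespace Pool.Agent.R465.LL

open Finset Filter Topology Pool.Agent.TH498.AR MeasureTheory

/-- the density of the ratio `a / b` -/
noncomputable def kk (r : ℝ) : ℝ := (r * (1 + r)) ^ (-(2 / 3) : ℝ)

/-- its primitive -/
noncomputable def GG (u : ℝ) : ℝ := ∫ r in (0 : ℝ)..u, kk r

lemma kk_nonneg {r : ℝ} (hr : 0 ≤ r) : 0 ≤ kk r := Real.rpow_nonneg (by positivity) _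

lemma kk_pos {r : ℝ} (hr : 0 < r) : 0 < kk r := Real.rpow_pos_of_pos (by positivity) _

lemma kk_anti {r s : ℝ} (hr : 0 < r) (h : r ≤ s) : kk s ≤ kk r :=
  Real.rpow_le_rpow_of_nonpos (by positivity)
    (mul_le_mul h (by linarith) (by linarith) (by linarith)) (by norm_num)

lemma kk_le {r : ℝ} (hr : 0 ≤ r) : kk r ≤ r ^ (-(2 / 3) : ℝ) := by
  unfold kk
  rcases hr.eq_or_lt with h | h
  · rw [← h]
    simp
  · exact Real.rpow_le_rpow_of_nonpos h (by nlinarith) (by norm_num)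

lemma kk_meas : Measurable kk :=
  (measurable_id.mul (measurable_const.add measurable_id)).pow_const _

lemma kk_int0 {u : ℝ} (hu : 0 ≤ u) : IntervalIntegrable kk volume 0 u := by
  have h1 : IntervalIntegrable (fun r : ℝ => r ^ (-(2 / 3) : ℝ)) volume 0 u :=
    intervalIntegral.intervalIntegrable_rpow' (by norm_num)
  refine h1.mono_fun' kk_meas.aestronglyMeasurable ?_
  rw [Set.uIoc_of_le hu]
  refine (ae_restrict_mem measurableSet_Ioc).mono fun r hr => ?_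
  simp only
  rw [Real.norm_of_nonneg (kk_nonneg hr.1.le)]
  exact kk_le hr.1.le

lemma kk_int {u v : ℝ} (hu : 0 ≤ u) (hv : 0 ≤ v) : IntervalIntegrable kk volume u v :=
  (kk_int0 hu).symm.trans (kk_int0 hv)

lemma GG_sub {u v : ℝ} (hu : 0 ≤ u) (hv : 0 ≤ v) : GG v - GG u = ∫ r in u..v, kk r := by
  unfold GG
  exact intervalIntegral.integral_interval_sub_left (kk_int0 hv) (kk_int0 hu)

@[simp] lemma GG_zero : GG 0 = 0 := by simp [GG]

lemma GG_sub_ge {u v : ℝ} (hu : 0 ≤ u) (huv : u ≤ v) : (v - u) * kk v ≤ GG v - GG u := by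
  rw [GG_sub hu (hu.trans huv)]
  have h1 : ∫ _r in u..v, kk v = (v - u) * kk v := by
    rw [intervalIntegral.integral_const, smul_eq_mul]
  rw [← h1]
  refine intervalIntegral.integral_mono_on_of_le_Ioo huv intervalIntegrable_const
    (kk_int hu (hu.trans huv)) fun x hx => ?_
  exact kk_anti (by linarith [hx.1]) hx.2.le

lemma GG_sub_le {u v : ℝ} (hu : 0 < u) (huv : u ≤ v) : GG v - GG u ≤ (v - u) * kk u := by
  rw [GG_sub hu.le (hu.le.trans huv)]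
  have h1 : ∫ _r in u..v, kk u = (v - u) * kk u := by
    rw [intervalIntegral.integral_const, smul_eq_mul]
  rw [← h1]
  refine intervalIntegral.integral_mono_on_of_le_Ioo huv (kk_int hu.le (hu.le.trans huv))
    intervalIntegrable_const fun x hx => ?_
  exact kk_anti hu hx.1.le

lemma GG_mono {u v : ℝ} (hu : 0 ≤ u) (huv : u ≤ v) : GG u ≤ GG v := by
  have h1 := GG_sub_ge hu huv
  have h2 : 0 ≤ (v - u) * kk v := mul_nonneg (by linarith) (kk_nonneg (hu.trans huv))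
  linarith

lemma GG_strict {u v : ℝ} (hu : 0 ≤ u) (huv : u < v) : GG u < GG v := by
  have h1 := GG_sub_ge hu huv.le
  have h2 : 0 < (v - u) * kk v := mul_pos (by linarith) (kk_pos (hu.trans_lt huv))
  linarith

lemma GG_nonneg {u : ℝ} (hu : 0 ≤ u) : 0 ≤ GG u := by
  have := GG_mono le_rfl hu
  rwa [GG_zero] at this

lemma GG_pos {u : ℝ} (hu : 0 < u) : 0 < GG u := by
  have := GG_strict le_rfl hu
  rwa [GG_zero] at this

lemma GG_le {u : ℝ} (hu : 0 ≤ u) : GG u ≤ 3 * u ^ ((1 : ℝ) / 3) := by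
  have h1 : IntervalIntegrable (fun r : ℝ => r ^ (-(2 / 3) : ℝ)) volume 0 u :=
    intervalIntegral.intervalIntegrable_rpow' (by norm_num)
  have h2 : GG u ≤ ∫ r in (0 : ℝ)..u, r ^ (-(2 / 3) : ℝ) := by
    unfold GG
    exact intervalIntegral.integral_mono_on hu (kk_int0 hu) h1 fun x hx => kk_le hx.1
  refine h2.trans (le_of_eq ?_)
  rw [integral_rpow (Or.inl (by norm_num))]
  norm_num
  ring

lemma GG_cont : ContinuousOn GG (Set.Icc 0 1) := by
  have h := intervalIntegral.continuousOn_primitive_interval (μ := volume) (f := kk)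
    (a := 0) (b := 1) (by
      rw [Set.uIcc_of_le zero_le_one, integrableOn_Icc_iff_integrableOn_Ioc,
        ← intervalIntegrable_iff_integrableOn_Ioc_of_le zero_le_one]
      exact kk_int0 zero_le_one)
  rw [Set.uIcc_of_le zero_le_one] at h
  exact h

/-- the height of the curve above the ray of slope `u` -/
noncomputable def hh (u : ℝ) : ℝ := (u * (1 + u)) ^ (-(1 / 3) : ℝ)

lemma hh_pos {u : ℝ} (hu : 0 < u) : 0 < hh u := Real.rpow_pos_of_pos (by positivity) _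

lemma hh_sq {u : ℝ} (hu : 0 < u) : hh u ^ 2 = kk u := by
  unfold hh kk
  rw [← Real.rpow_natCast, ← Real.rpow_mul (by positivity)]
  norm_num

lemma hh_cube {u : ℝ} (hu : 0 < u) : hh u ^ 3 * (u * (1 + u)) = 1 := by
  have h0 : 0 < u * (1 + u) := by positivity
  unfold hh
  rw [← Real.rpow_natCast, ← Real.rpow_mul h0.le]
  have : (-(1 / 3) : ℝ) * ((3 : ℕ) : ℝ) = -1 := by norm_num
  rw [this, Real.rpow_neg_one]
  exact inv_mul_cancel₀ h0.ne'

lemma hh_anti {r s : ℝ} (hr : 0 < r) (h : r ≤ s) : hh s ≤ hh r :=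
  Real.rpow_le_rpow_of_nonpos (by positivity)
    (mul_le_mul h (by linarith) (by linarith) (by linarith)) (by norm_num)

/-- the sector `u₁ b < a ≤ u₂ b` below the curve, in a residue class -/
noncomputable def Sct (u1 u2 : ℝ) (Q r s : ℕ) (x : ℝ) : Finset (ℕ × ℕ) :=
  (Tri u1 u2 Q r s (x * hh u1)).filter (fun p => (p.1 : ℝ) * p.2 * (p.1 + p.2) ≤ x ^ 3)

lemma below_of {u x : ℝ} (hu : 0 < u) (hx : 0 ≤ x) {a b : ℕ} (hab : (a : ℝ) ≤ u * b)
    (hb : (b : ℝ) ≤ x * hh u) : (a : ℝ) * b * (a + b) ≤ x ^ 3 := by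
  have hb0 : (0 : ℝ) ≤ b := Nat.cast_nonneg _
  have ha0 : (0 : ℝ) ≤ a := Nat.cast_nonneg _
  calc (a : ℝ) * b * (a + b) ≤ (u * b) * b * (u * b + b) := by
        refine mul_le_mul (mul_le_mul_of_nonneg_right hab hb0) (by linarith) (by positivity)
          (by positivity)
    _ = (u * (1 + u)) * (b : ℝ) ^ 3 := by ring
    _ ≤ (u * (1 + u)) * (x * hh u) ^ 3 :=
        mul_le_mul_of_nonneg_left (pow_le_pow_left₀ hb0 hb 3) (by positivity)
    _ = x ^ 3 * (hh u ^ 3 * (u * (1 + u))) := by ring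
    _ = x ^ 3 := by rw [hh_cube hu, mul_one]

lemma height_of {u x : ℝ} (hu : 0 < u) (hx : 0 ≤ x) {a b : ℕ} (hab : u * b ≤ (a : ℝ))
    (h : (a : ℝ) * b * (a + b) ≤ x ^ 3) : (b : ℝ) ≤ x * hh u := by
  have hb0 : (0 : ℝ) ≤ b := Nat.cast_nonneg _
  have hc := hh_cube hu
  have hp := hh_pos hu
  by_contra hcon
  push Not at hcon
  have h1 : (x * hh u) ^ 3 < (b : ℝ) ^ 3 := pow_lt_pow_left₀ hcon (by positivity) (by norm_num)
  have h2 : (u * (1 + u)) * (b : ℝ) ^ 3 ≤ (a : ℝ) * b * (a + b) := by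
    calc (u * (1 + u)) * (b : ℝ) ^ 3 = (u * b) * b * (u * b + b) := by ring
      _ ≤ (a : ℝ) * b * (a + b) := by
          refine mul_le_mul (mul_le_mul_of_nonneg_right hab hb0) (by linarith) (by positivity)
            (by positivity)
  have h3 : (u * (1 + u)) * (x * hh u) ^ 3 < (u * (1 + u)) * (b : ℝ) ^ 3 :=
    mul_lt_mul_of_pos_left h1 (by positivity)
  have h4 : (u * (1 + u)) * (x * hh u) ^ 3 = x ^ 3 * (hh u ^ 3 * (u * (1 + u))) := by ring
  rw [h4, hc, mul_one] at h3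
  linarith

lemma mem_Sct {u1 u2 : ℝ} (h1 : 0 < u1) (h12 : u1 ≤ u2) {Q r s : ℕ} {x : ℝ} (hx : 0 ≤ x)
    {p : ℕ × ℕ} : p ∈ Sct u1 u2 Q r s x ↔ u1 * p.2 < p.1 ∧ (p.1 : ℝ) ≤ u2 * p.2 ∧
      (p.1 : ℝ) * p.2 * (p.1 + p.2) ≤ x ^ 3 ∧ p.1 % Q = r % Q ∧ p.2 % Q = s % Q := by
  unfold Sct
  have hβ : 0 ≤ x * hh u1 := mul_nonneg hx (hh_pos h1).le
  rw [mem_filter, mem_Tri h1.le (h1.le.trans h12) hβ]
  constructor
  · rintro ⟨⟨-, a2, a3, a4, a5⟩, a6⟩
    exact ⟨a2, a3, a6, a4, a5⟩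
  · rintro ⟨a2, a3, a6, a4, a5⟩
    exact ⟨⟨height_of h1 hx a2.le a6, a2, a3, a4, a5⟩, a6⟩

/-- **The count of a thin sector.** -/
lemma card_Sct {u1 u2 : ℝ} (h1 : 0 < u1) (h12 : u1 ≤ u2) (h2 : u2 ≤ 1) {Q : ℕ} (hQ : 0 < Q)
    (r s : ℕ) {x : ℝ} (hx : 0 ≤ x) :
    |((Sct u1 u2 Q r s x).card : ℝ) - (GG u2 - GG u1) / (2 * Q ^ 2) * x ^ 2| ≤
      (u2 - u1) * (kk u1 - kk u2) * x ^ 2 + 20 * (x * hh u1 + 1) := by
  have hQ1 : (1 : ℝ) ≤ Q := by exact_mod_cast hQ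
  have hQ0 : (0 : ℝ) < Q := by linarith
  have h2p : 0 < u2 := by linarith
  have hβ1 : 0 ≤ x * hh u1 := mul_nonneg hx (hh_pos h1).le
  have hβ2 : 0 ≤ x * hh u2 := mul_nonneg hx (hh_pos h2p).le
  have c1 := card_Tri h1.le h12 h2 hQ r s hβ1
  have c2 := card_Tri h1.le h12 h2 hQ r s hβ2
  have s1 : Sct u1 u2 Q r s x ⊆ Tri u1 u2 Q r s (x * hh u1) := filter_subset _ _
  have s2 : Tri u1 u2 Q r s (x * hh u2) ⊆ Sct u1 u2 Q r s x := by
    intro p hp
    rw [mem_Tri h1.le h2p.le hβ2] at hp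
    obtain ⟨a1, a2, a3, a4, a5⟩ := hp
    rw [mem_Sct h1 h12 hx]
    exact ⟨a2, a3, below_of h2p hx a3 a1, a4, a5⟩
  have d1 : ((Sct u1 u2 Q r s x).card : ℝ) ≤ (Tri u1 u2 Q r s (x * hh u1)).card := by
    exact_mod_cast card_le_card s1
  have d2 : ((Tri u1 u2 Q r s (x * hh u2)).card : ℝ) ≤ (Sct u1 u2 Q r s x).card := by
    exact_mod_cast card_le_card s2
  have e1 : (u2 - u1) * (x * hh u1) ^ 2 / (2 * (Q : ℝ) ^ 2) =
      (u2 - u1) * kk u1 / (2 * (Q : ℝ) ^ 2) * x ^ 2 := by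
    rw [mul_pow, hh_sq h1]; ring
  have e2 : (u2 - u1) * (x * hh u2) ^ 2 / (2 * (Q : ℝ) ^ 2) =
      (u2 - u1) * kk u2 / (2 * (Q : ℝ) ^ 2) * x ^ 2 := by
    rw [mul_pow, hh_sq h2p]; ring
  rw [e1] at c1
  rw [e2] at c2
  have g1 := GG_sub_le h1 h12
  have g2 := GG_sub_ge h1.le h12
  have hk : 0 ≤ kk u1 - kk u2 := sub_nonneg.2 (kk_anti h1 h12)
  have hx2 : 0 ≤ x ^ 2 := by positivity
  have hD : 0 ≤ (u2 - u1) * (kk u1 - kk u2) := mul_nonneg (by linarith) hk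
  have hQQ : (1 : ℝ) ≤ 2 * (Q : ℝ) ^ 2 := by nlinarith
  have f1 : (u2 - u1) * kk u1 / (2 * (Q : ℝ) ^ 2) * x ^ 2 -
      (GG u2 - GG u1) / (2 * Q ^ 2) * x ^ 2 ≤ (u2 - u1) * (kk u1 - kk u2) * x ^ 2 := by
    have : (u2 - u1) * kk u1 / (2 * (Q : ℝ) ^ 2) * x ^ 2 -
        (GG u2 - GG u1) / (2 * Q ^ 2) * x ^ 2 =
        ((u2 - u1) * kk u1 - (GG u2 - GG u1)) / (2 * (Q : ℝ) ^ 2) * x ^ 2 := by ring
    rw [this]
    refine mul_le_mul_of_nonneg_right ?_ hx2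
    rw [div_le_iff₀ (by positivity)]
    have : (u2 - u1) * kk u1 - (GG u2 - GG u1) ≤ (u2 - u1) * (kk u1 - kk u2) := by linarith
    nlinarith
  have f2 : (GG u2 - GG u1) / (2 * Q ^ 2) * x ^ 2 - (u2 - u1) * kk u2 / (2 * (Q : ℝ) ^ 2) * x ^ 2
      ≤ (u2 - u1) * (kk u1 - kk u2) * x ^ 2 := by
    have : (GG u2 - GG u1) / (2 * Q ^ 2) * x ^ 2 - (u2 - u1) * kk u2 / (2 * (Q : ℝ) ^ 2) * x ^ 2 =
        ((GG u2 - GG u1) - (u2 - u1) * kk u2) / (2 * (Q : ℝ) ^ 2) * x ^ 2 := by ring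
    rw [this]
    refine mul_le_mul_of_nonneg_right ?_ hx2
    rw [div_le_iff₀ (by positivity)]
    have : (GG u2 - GG u1) - (u2 - u1) * kk u2 ≤ (u2 - u1) * (kk u1 - kk u2) := by linarith
    nlinarith
  have hm : x * hh u2 ≤ x * hh u1 := mul_le_mul_of_nonneg_left (hh_anti h1 h12) hx
  rw [abs_le] at c1 c2 ⊢
  constructor <;> linarith [c1.1, c1.2, c2.1, c2.2]

lemma card_Sct_add {a b c : ℝ} (ha : 0 < a) (hab : a ≤ b) (hbc : b ≤ c) (Q r s : ℕ) {x : ℝ}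
    (hx : 0 ≤ x) : (Sct a c Q r s x).card = (Sct a b Q r s x).card + (Sct b c Q r s x).card := by
  have hb : 0 < b := by linarith
  rw [← card_union_of_disjoint]
  · congr 1
    ext p
    have hp : (0 : ℝ) ≤ p.2 := Nat.cast_nonneg _
    rw [mem_union, mem_Sct ha (hab.trans hbc) hx, mem_Sct ha hab hx, mem_Sct hb hbc hx]
    have h1 : a * p.2 ≤ b * (p.2 : ℝ) := mul_le_mul_of_nonneg_right hab hp
    have h2 : b * p.2 ≤ c * (p.2 : ℝ) := mul_le_mul_of_nonneg_right hbc hp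
    constructor
    · rintro ⟨a1, a2, a3, a4, a5⟩
      rcases le_or_gt (p.1 : ℝ) (b * p.2) with h | h
      · exact Or.inl ⟨a1, h, a3, a4, a5⟩
      · exact Or.inr ⟨h, a2, a3, a4, a5⟩
    · rintro (⟨a1, a2, a3, a4, a5⟩ | ⟨a1, a2, a3, a4, a5⟩)
      · exact ⟨a1, a2.trans h2, a3, a4, a5⟩
      · exact ⟨h1.trans_lt a1, a2, a3, a4, a5⟩
  · rw [disjoint_left]
    intro p hp hp'
    rw [mem_Sct ha hab hx] at hp
    rw [mem_Sct hb hbc hx] at hp'
    linarith [hp.2.1, hp'.1]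

/-- **The count of a sector.** -/
theorem sector_asy {δ u : ℝ} (hδ : 0 < δ) (hδu : δ ≤ u) (hu : u ≤ 1) {Q : ℕ} (hQ : 0 < Q)
    {ε : ℝ} (hε : 0 < ε) : ∃ C : ℝ, 0 ≤ C ∧ ∀ (r s : ℕ) (x : ℝ), 0 ≤ x →
      |((Sct δ u Q r s x).card : ℝ) - (GG u - GG δ) / (2 * Q ^ 2) * x ^ 2| ≤
        ε * x ^ 2 + C * (x + 1) := by
  obtain ⟨n, hn⟩ : ∃ n : ℕ, n = ⌈(u - δ) * kk δ / ε⌉₊ + 1 := ⟨_, rfl⟩
  have hn0 : (0 : ℝ) < n := by rw [hn]; positivity
  have hn1 : (u - δ) * kk δ / ε ≤ n := by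
    rw [hn]; push_cast
    linarith [Nat.le_ceil ((u - δ) * kk δ / ε)]
  rw [div_le_iff₀ hε] at hn1
  obtain ⟨Δ, hΔ⟩ : ∃ Δ : ℝ, Δ = (u - δ) / n := ⟨_, rfl⟩
  have hΔ0 : 0 ≤ Δ := by rw [hΔ]; exact div_nonneg (by linarith) hn0.le
  have hnΔ : n * Δ = u - δ := by rw [hΔ]; field_simp
  set t : ℕ → ℝ := fun i => δ + i * Δ with ht
  have ht0 : ∀ i, δ ≤ t i := fun i => by
    simp only [ht]
    have : 0 ≤ (i : ℝ) * Δ := by positivity
    linarith
  have hts : ∀ i, t (i + 1) - t i = Δ := fun i => by simp only [ht]; push_cast; ring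
  have htn : t n = u := by simp only [ht]; rw [hnΔ]; ring
  have htle : ∀ i, i ≤ n → t i ≤ 1 := fun i hi => by
    have h1 : (i : ℝ) * Δ ≤ n * Δ := mul_le_mul_of_nonneg_right (by exact_mod_cast hi) hΔ0
    simp only [ht]
    linarith
  refine ⟨n * (20 * (hh δ + 1)), by have := (hh_pos hδ).le; positivity, fun r s x hx => ?_⟩
  have key : ∀ m : ℕ, m ≤ n →
      |((Sct δ (t m) Q r s x).card : ℝ) - (GG (t m) - GG δ) / (2 * Q ^ 2) * x ^ 2| ≤
        Δ * (kk δ - kk (t m)) * x ^ 2 + m * (20 * (x * hh δ + 1)) := by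
    intro m
    induction m with
    | zero =>
      intro _
      have h0 : t 0 = δ := by simp [ht]
      rw [h0]
      have hc : (Sct δ δ Q r s x).card = 0 := by
        rw [card_eq_zero, eq_empty_iff_forall_notMem]
        intro p hp
        rw [mem_Sct hδ le_rfl hx] at hp
        linarith [hp.1, hp.2.1]
      rw [hc]
      simp
    | succ m ih =>
      intro hm
      have ih' := ih (by omega)
      have htm : 0 < t m := hδ.trans_le (ht0 m)
      have hle : t m ≤ t (m + 1) := by linarith [hts m]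
      have hc := card_Sct_add hδ (ht0 m) hle Q r s hx
      have h1 := card_Sct htm hle (htle _ hm) hQ r s hx
      rw [hts m] at h1
      have e : ((Sct δ (t (m + 1)) Q r s x).card : ℝ) -
          (GG (t (m + 1)) - GG δ) / (2 * Q ^ 2) * x ^ 2 =
          (((Sct δ (t m) Q r s x).card : ℝ) - (GG (t m) - GG δ) / (2 * Q ^ 2) * x ^ 2) +
          (((Sct (t m) (t (m + 1)) Q r s x).card : ℝ) -
            (GG (t (m + 1)) - GG (t m)) / (2 * Q ^ 2) * x ^ 2) := by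
        rw [hc]
        push_cast
        ring
      rw [e]
      refine (abs_add_le _ _).trans ?_
      have h2 : x * hh (t m) ≤ x * hh δ := mul_le_mul_of_nonneg_left (hh_anti hδ (ht0 m)) hx
      push_cast
      nlinarith
  have h := key n le_rfl
  rw [htn] at h
  refine h.trans ?_
  have hx2 : 0 ≤ x ^ 2 := by positivity
  have hku : 0 ≤ kk u := kk_nonneg (by linarith)
  have h3 : Δ * (kk δ - kk u) ≤ ε := by
    have h4 : Δ * kk δ ≤ ε := by
      rw [hΔ, div_mul_eq_mul_div, div_le_iff₀ hn0]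
      linarith
    nlinarith
  have h5 : Δ * (kk δ - kk u) * x ^ 2 ≤ ε * x ^ 2 := mul_le_mul_of_nonneg_right h3 hx2
  have h6 : x * hh δ + 1 ≤ (hh δ + 1) * (x + 1) := by
    have := (hh_pos hδ).le
    nlinarith
  have h7 : (n : ℝ) * (20 * (x * hh δ + 1)) ≤ n * (20 * (hh δ + 1)) * (x + 1) := by
    rw [mul_assoc, mul_assoc (20 : ℝ)]
    exact mul_le_mul_of_nonneg_left (mul_le_mul_of_nonneg_left h6 (by norm_num)) hn0.le
  linarith

end Pool.Agent.R465.LL
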