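import Pool.Agent.TH498.AR.Riem

set_option autoImplicit false

/-!
# Lattice points of a residue class in triangles and thin sectors
-/

namespace Pool.Agent.R465.LL

open Finset Filter Topology Pool.Agent.TH498.AR

/-- the number of the integers of a residue class in `[m, n)` -/
lemma class_Ico {Q : ℕ} (hQ : 0 < Q) (s : ℕ) {m n : ℕ} (h : m ≤ n) :
    |(((Ico m n).filter (fun b => b % Q = s % Q)).card : ℝ) - ((n : ℝ) - m) / Q| ≤ 2 := by
  have h1 := count_class hQ s n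
  have h2 := count_class hQ s m
  have h3 : ((range n).filter (fun b => b % Q = s % Q)).card =
      ((range m).filter (fun b => b % Q = s % Q)).card +
        ((Ico m n).filter (fun b => b % Q = s % Q)).card := by
    rw [← card_union_of_disjoint, ← filter_union]
    · congr 2
      ext b
      simp only [mem_range, mem_union, mem_Ico]
      omega
    · rw [disjoint_left]
      intro b hb hb'
      simp only [mem_filter, mem_range, mem_Ico] at hb hb'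
      omega
  have h4 : (((range n).filter (fun b => b % Q = s % Q)).card : ℝ) =
      ((range m).filter (fun b => b % Q = s % Q)).card +
        ((Ico m n).filter (fun b => b % Q = s % Q)).card := by exact_mod_cast h3
  rw [abs_le] at h1 h2 ⊢
  have h5 : ((n : ℝ) - m) / Q = (n : ℝ) / Q - (m : ℝ) / Q := by ring
  rw [h5]
  constructor <;> linarith [h1.1, h1.2, h2.1, h2.2]

/-- the weighted count of a class -/
lemma class_sum {Q : ℕ} (hQ : 0 < Q) (s N : ℕ) :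
    |(∑ b ∈ (range N).filter (fun b => b % Q = s % Q), (b : ℝ)) - (N : ℝ) ^ 2 / (2 * Q)| ≤
      3 * (N : ℝ) := by
  have hQ1 : (1 : ℝ) ≤ Q := by exact_mod_cast hQ
  have hQ0 : (0 : ℝ) < Q := by linarith
  set c : ℕ → ℝ := fun n => (((range n).filter (fun b => b % Q = s % Q)).card : ℝ) with hc
  have hid : ∀ n : ℕ, (∑ b ∈ (range n).filter (fun b => b % Q = s % Q), (b : ℝ)) =
      n * c n - ∑ j ∈ range n, c (j + 1) := by
    intro n
    induction n with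
    | zero => simp
    | succ n ih =>
      have e1 : c (n + 1) = c n + if n % Q = s % Q then 1 else 0 := by
        simp only [hc]
        rw [range_add_one, filter_insert]
        split_ifs with h
        · rw [card_insert_of_notMem (by simp)]
          push_cast
          ring
        · simp
      rw [sum_range_succ, range_add_one, filter_insert]
      split_ifs with h
      · rw [sum_insert (by simp), ih, e1, if_pos h]
        push_cast
        ring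
      · rw [ih, e1, if_neg h]
        push_cast
        ring
  have hcb : ∀ n : ℕ, |c n - (n : ℝ) / Q| ≤ 1 := fun n => count_class hQ s n
  have h1 : |(N : ℝ) * c N - (N : ℝ) ^ 2 / Q| ≤ N := by
    have : (N : ℝ) * c N - (N : ℝ) ^ 2 / Q = N * (c N - N / Q) := by ring
    rw [this, abs_mul, abs_of_nonneg (Nat.cast_nonneg _)]
    have := hcb N
    nlinarith [Nat.cast_nonneg (α := ℝ) N]
  have h2 : |(∑ j ∈ range N, c (j + 1)) - (∑ j ∈ range N, ((j + 1 : ℕ) : ℝ) / Q)| ≤ N := by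
    rw [← sum_sub_distrib]
    refine (abs_sum_le_sum_abs _ _).trans ?_
    refine (sum_le_sum fun j _ => hcb (j + 1)).trans ?_
    simp
  have h3 : (∑ j ∈ range N, ((j + 1 : ℕ) : ℝ) / Q) = ((N : ℝ) ^ 2 + N) / (2 * Q) := by
    rw [← sum_div]
    have : (∑ j ∈ range N, ((j + 1 : ℕ) : ℝ)) = ((N : ℝ) ^ 2 + N) / 2 := by
      clear h1 h2
      induction N with
      | zero => simp
      | succ n ih =>
        rw [sum_range_succ, ih]
        push_cast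
        ring
    rw [this]
    field_simp
  rw [hid N]
  rw [h3] at h2
  have h4 : (N : ℝ) / (2 * Q) ≤ N := by
    rw [div_le_iff₀ (by positivity)]
    nlinarith [Nat.cast_nonneg (α := ℝ) N]
  have h5 : 0 ≤ (N : ℝ) / (2 * Q) := by positivity
  have e : (N : ℝ) * c N - ∑ j ∈ range N, c (j + 1) - (N : ℝ) ^ 2 / (2 * Q) =
      ((N : ℝ) * c N - (N : ℝ) ^ 2 / Q) -
        ((∑ j ∈ range N, c (j + 1)) - ((N : ℝ) ^ 2 + N) / (2 * Q)) - N / (2 * Q) := by
    field_simp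
    ring
  rw [e]
  rw [abs_le] at h1 h2 ⊢
  constructor <;> linarith [h1.1, h1.2, h2.1, h2.2]

/-- the triangle `b ≤ β`, `u₁ b < a ≤ u₂ b` in a residue class -/
noncomputable def Tri (u1 u2 : ℝ) (Q r s : ℕ) (β : ℝ) : Finset (ℕ × ℕ) :=
  (((range (⌊β⌋₊ + 1)).filter (fun b => b % Q = s % Q)).sigma (fun b =>
    (Ico (⌊u1 * b⌋₊ + 1) (⌊u2 * b⌋₊ + 1)).filter (fun a => a % Q = r % Q))).image
      (fun t => (t.2, t.1))

lemma mem_Tri {u1 u2 : ℝ} (h1 : 0 ≤ u1) (h2 : 0 ≤ u2) {Q r s : ℕ} {β : ℝ} (hβ : 0 ≤ β)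
    {p : ℕ × ℕ} : p ∈ Tri u1 u2 Q r s β ↔ (p.2 : ℝ) ≤ β ∧ u1 * p.2 < p.1 ∧ (p.1 : ℝ) ≤ u2 * p.2 ∧
      p.1 % Q = r % Q ∧ p.2 % Q = s % Q := by
  unfold Tri
  rw [mem_image]
  constructor
  · rintro ⟨⟨b, a⟩, h, rfl⟩
    simp only [mem_sigma, mem_filter, mem_range, mem_Ico] at h
    obtain ⟨⟨a1, a2⟩, ⟨a3, a4⟩, a5⟩ := h
    have b1 : b ≤ ⌊β⌋₊ := by omega
    have b2 : ⌊u1 * (b : ℝ)⌋₊ < a := by omega
    have b3 : a ≤ ⌊u2 * (b : ℝ)⌋₊ := by omega
    exact ⟨(Nat.le_floor_iff hβ).1 b1, (Nat.floor_lt (by positivity)).1 b2,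
      (Nat.le_floor_iff (by positivity)).1 b3, a5, a2⟩
  · rintro ⟨a1, a2, a3, a4, a5⟩
    refine ⟨⟨p.2, p.1⟩, ?_, rfl⟩
    simp only [mem_sigma, mem_filter, mem_range, mem_Ico]
    refine ⟨⟨?_, a5⟩, ⟨?_, ?_⟩, a4⟩
    · have := (Nat.le_floor_iff hβ).2 a1
      omega
    · have := (Nat.floor_lt (by positivity)).2 a2
      omega
    · have := (Nat.le_floor_iff (by positivity)).2 a3
      omega

/-- **The count of a triangle.** -/
lemma card_Tri {u1 u2 : ℝ} (h1 : 0 ≤ u1) (h12 : u1 ≤ u2) (h2 : u2 ≤ 1) {Q : ℕ} (hQ : 0 < Q)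
    (r s : ℕ) {β : ℝ} (hβ : 0 ≤ β) :
    |((Tri u1 u2 Q r s β).card : ℝ) - (u2 - u1) * β ^ 2 / (2 * Q ^ 2)| ≤ 20 * (β + 1) := by
  have hQ1 : (1 : ℝ) ≤ Q := by exact_mod_cast hQ
  have hQ0 : (0 : ℝ) < Q := by linarith
  obtain ⟨N, hN⟩ : ∃ N : ℕ, N = ⌊β⌋₊ + 1 := ⟨_, rfl⟩
  have hN1 : (N : ℝ) ≤ β + 1 := by
    rw [hN]; push_cast
    linarith [Nat.floor_le hβ]
  have hN2 : β < N := by
    rw [hN]; push_cast
    exact Nat.lt_floor_add_one β
  have hcard : (Tri u1 u2 Q r s β).card = ∑ b ∈ (range N).filter (fun b => b % Q = s % Q),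
      ((Ico (⌊u1 * b⌋₊ + 1) (⌊u2 * b⌋₊ + 1)).filter (fun a => a % Q = r % Q)).card := by
    unfold Tri
    rw [card_image_of_injective, card_sigma, hN]
    rintro ⟨b, a⟩ ⟨b', a'⟩ h
    simp only [Prod.mk.injEq] at h
    obtain ⟨rfl, rfl⟩ := h
    rfl
  have hpt : ∀ b : ℕ, |(((Ico (⌊u1 * b⌋₊ + 1) (⌊u2 * b⌋₊ + 1)).filter
      (fun a => a % Q = r % Q)).card : ℝ) - (u2 - u1) / Q * b| ≤ 3 := by
    intro b
    have hb0 : (0 : ℝ) ≤ b := Nat.cast_nonneg _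
    have hle : ⌊u1 * b⌋₊ + 1 ≤ ⌊u2 * (b : ℝ)⌋₊ + 1 := by
      have := Nat.floor_le_floor (mul_le_mul_of_nonneg_right h12 hb0)
      omega
    have k1 := class_Ico hQ r hle
    have f1 := Nat.floor_le (mul_nonneg h1 hb0)
    have f2 := Nat.floor_le (mul_nonneg (h1.trans h12) hb0)
    have f3 := Nat.lt_floor_add_one (u1 * (b : ℝ))
    have f4 := Nat.lt_floor_add_one (u2 * (b : ℝ))
    have k2 : |(((⌊u2 * (b : ℝ)⌋₊ + 1 : ℕ) : ℝ) - ((⌊u1 * (b : ℝ)⌋₊ + 1 : ℕ) : ℝ)) / Q -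
        (u2 - u1) / Q * b| ≤ 1 := by
      push_cast
      have e : ((⌊u2 * (b : ℝ)⌋₊ : ℝ) + 1 - ((⌊u1 * (b : ℝ)⌋₊ : ℝ) + 1)) / Q - (u2 - u1) / Q * b =
          (((⌊u2 * (b : ℝ)⌋₊ : ℝ) - u2 * b) - ((⌊u1 * (b : ℝ)⌋₊ : ℝ) - u1 * b)) / Q := by ring
      rw [e, abs_div, abs_of_pos hQ0, div_le_iff₀ hQ0, one_mul]
      refine le_trans ?_ hQ1
      rw [abs_le]
      constructor <;> linarith
    have e : (((Ico (⌊u1 * b⌋₊ + 1) (⌊u2 * b⌋₊ + 1)).filter
        (fun a => a % Q = r % Q)).card : ℝ) - (u2 - u1) / Q * b =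
        ((((Ico (⌊u1 * b⌋₊ + 1) (⌊u2 * b⌋₊ + 1)).filter (fun a => a % Q = r % Q)).card : ℝ) -
          (((⌊u2 * (b : ℝ)⌋₊ + 1 : ℕ) : ℝ) - ((⌊u1 * (b : ℝ)⌋₊ + 1 : ℕ) : ℝ)) / Q) +
        ((((⌊u2 * (b : ℝ)⌋₊ + 1 : ℕ) : ℝ) - ((⌊u1 * (b : ℝ)⌋₊ + 1 : ℕ) : ℝ)) / Q -
          (u2 - u1) / Q * b) := by ring
    rw [e]
    refine (abs_add_le _ _).trans ?_
    linarith
  have hS : |((Tri u1 u2 Q r s β).card : ℝ) - (u2 - u1) / Q *
      ∑ b ∈ (range N).filter (fun b => b % Q = s % Q), (b : ℝ)| ≤ 3 * (N : ℝ) := by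
    rw [hcard, mul_sum]
    push_cast
    rw [← sum_sub_distrib]
    refine (abs_sum_le_sum_abs _ _).trans ?_
    refine (sum_le_sum fun b _ => hpt b).trans ?_
    rw [sum_const, nsmul_eq_mul, mul_comm]
    refine mul_le_mul_of_nonneg_left ?_ (by norm_num)
    have : ((range N).filter (fun b => b % Q = s % Q)).card ≤ N := by
      refine (card_filter_le _ _).trans ?_
      rw [card_range]
    exact_mod_cast this
  have hW := class_sum hQ s N
  have hd0 : 0 ≤ u2 - u1 := by linarith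
  have hd1 : (u2 - u1) / Q ≤ 1 := by
    rw [div_le_iff₀ hQ0]
    linarith
  have hd2 : 0 ≤ (u2 - u1) / Q := by positivity
  have hS2 : |(u2 - u1) / Q * (∑ b ∈ (range N).filter (fun b => b % Q = s % Q), (b : ℝ)) -
      (u2 - u1) * (N : ℝ) ^ 2 / (2 * Q ^ 2)| ≤ 3 * (N : ℝ) := by
    have e : (u2 - u1) / Q * (∑ b ∈ (range N).filter (fun b => b % Q = s % Q), (b : ℝ)) -
      (u2 - u1) * (N : ℝ) ^ 2 / (2 * Q ^ 2) = (u2 - u1) / Q *
        ((∑ b ∈ (range N).filter (fun b => b % Q = s % Q), (b : ℝ)) - (N : ℝ) ^ 2 / (2 * Q)) := by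
      field_simp
    rw [e, abs_mul, abs_of_nonneg hd2]
    have hn : (0 : ℝ) ≤ 3 * N := by positivity
    calc (u2 - u1) / Q * _ ≤ 1 * (3 * N) := mul_le_mul hd1 hW (abs_nonneg _) (by norm_num)
      _ = 3 * N := one_mul _
  have hS3 : |(u2 - u1) * (N : ℝ) ^ 2 / (2 * Q ^ 2) - (u2 - u1) * β ^ 2 / (2 * Q ^ 2)| ≤
      2 * (β + 1) := by
    have e : (u2 - u1) * (N : ℝ) ^ 2 / (2 * Q ^ 2) - (u2 - u1) * β ^ 2 / (2 * Q ^ 2) =
        (u2 - u1) / (2 * Q ^ 2) * ((N : ℝ) ^ 2 - β ^ 2) := by ring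
    rw [e, abs_mul]
    have k1 : |(u2 - u1) / (2 * (Q : ℝ) ^ 2)| ≤ 1 := by
      rw [abs_of_nonneg (by positivity), div_le_iff₀ (by positivity)]
      nlinarith
    have k2 : |(N : ℝ) ^ 2 - β ^ 2| ≤ 2 * (β + 1) := by
      rw [abs_of_nonneg (by nlinarith)]
      nlinarith
    calc _ ≤ 1 * (2 * (β + 1)) := mul_le_mul k1 k2 (abs_nonneg _) (by norm_num)
      _ = _ := one_mul _
  have e : ((Tri u1 u2 Q r s β).card : ℝ) - (u2 - u1) * β ^ 2 / (2 * Q ^ 2) =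
      (((Tri u1 u2 Q r s β).card : ℝ) - (u2 - u1) / Q *
        ∑ b ∈ (range N).filter (fun b => b % Q = s % Q), (b : ℝ)) +
      ((u2 - u1) / Q * (∑ b ∈ (range N).filter (fun b => b % Q = s % Q), (b : ℝ)) -
        (u2 - u1) * (N : ℝ) ^ 2 / (2 * Q ^ 2)) +
      ((u2 - u1) * (N : ℝ) ^ 2 / (2 * Q ^ 2) - (u2 - u1) * β ^ 2 / (2 * Q ^ 2)) := by ring
  rw [e]
  refine (abs_add_le _ _).trans ?_
  have := abs_add_le (((Tri u1 u2 Q r s β).card : ℝ) - (u2 - u1) / Q *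
        ∑ b ∈ (range N).filter (fun b => b % Q = s % Q), (b : ℝ))
      ((u2 - u1) / Q * (∑ b ∈ (range N).filter (fun b => b % Q = s % Q), (b : ℝ)) -
        (u2 - u1) * (N : ℝ) ^ 2 / (2 * Q ^ 2))
  linarith

end Pool.Agent.R465.LL
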